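import Pool.Agent.LibSD67.A

/-!
[SE B] `nn N x` is a nil ideal.

PROOF. `z ∈ Fac N x x (dim x)`, `R z = 0`. By `Submodule.span_induction` or `Submodule.mem_span_set'`
(rational coefficients absorbed in the left factor) `z = ∑ p : Fin n, b p * a p` with `j p ∈ N`,
`b p ∈ CH (j p) x (r p)`, `a p ∈ CH x (j p) (s p)`, `r p + s p = dim x + dim (j p)` (`exists_fac_sum`).
Put `M p q = a p * z * b q`. `M p q ∈ CH (j q) (j p) (dim (j q) + s p - s q)`
(`s p + (dim x + r q - dim x) - dim x`, `r q = dim x + dim (j q) - s q`) and `R (M p q) = 0`, so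
`M ^ K = 0` for some `K` (`h.nil`). Claim: `z ^ (2 * k + 1) * z ... `: for all `k`,
`z * z ^ (2 * k) * z = ∑ p q, b p * (M' ^ k) p q * a q` where ... ; simplest: with `A = (a p)` a column and
`B = (b q)` a row, `z = B A`, `M = A z B = A B A B = (A B)^2`, so
`z ^ (2 K + 1) = B (A B)^(2K) A = B M^K A = 0`. In Lean: by induction on `k`,
`z ^ (2 * k + 1) = ∑ p, ∑ q, b p * (M ^ k) p q * a q`; step: `z ^ (2(k+1)+1) = z ^ (2k+1) * (z * z)` and
`(M ^ (k+1)) p q = ∑ r, (M ^ k) p r * (a r * z * b q)`; use `∑ r, ∑ q, (..) * (a r * z * b q) * a q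
= ∑ r, (..) * a r * z * ∑ q, b q * a q`.
-/

set_option autoImplicit false

namespace SDCK

universe u v

namespace Cycles

variable {T : Cycles.{u, v}}

theorem exists_fac_sum {S : Set T.ι} {x : T.ι} {z : T.C} (hz : z ∈ T.Fac S x x (T.dim x)) :
    ∃ (n : ℕ) (j : Fin n → T.ι) (r s : Fin n → ℤ) (b a : Fin n → T.C),
      (∀ p, j p ∈ S) ∧ (∀ p, r p + s p = T.dim x + T.dim (j p)) ∧
      (∀ p, b p ∈ T.CH (j p) x (r p)) ∧ (∀ p, a p ∈ T.CH x (j p) (s p)) ∧
      z = ∑ p, b p * a p := by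
  unfold Fac at hz
  rw [Submodule.mem_span_set'] at hz
  obtain ⟨n, f, g, hfg⟩ := hz
  have hg : ∀ p : Fin n, ∃ o ∈ S, ∃ r s : ℤ, r + s = T.dim x + T.dim o ∧
      ∃ a ∈ T.CH o x r, ∃ b ∈ T.CH x o s, a * b = (g p : T.C) := fun p => (g p).2
  choose j hj r s hrs b hb a ha hab using hg
  refine ⟨n, j, r, s, fun p => f p • b p, a, hj, hrs, fun p => Submodule.smul_mem _ _ (hb p), ha, ?_⟩
  rw [← hfg]
  refine Finset.sum_congr rfl fun p _ => ?_
  rw [← hab p, smul_mul_assoc]

private theorem sd_B_pow {n : ℕ} {z : T.C} {b a : Fin n → T.C} (hz : z = ∑ p, b p * a p)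
    (M : Matrix (Fin n) (Fin n) T.C) (hM : ∀ p q, M p q = a p * z * b q) (k : ℕ) :
    z ^ (2 * k + 1) = ∑ p, ∑ q, b p * (M ^ k) p q * a q := by
  induction k with
  | zero =>
    rw [mul_zero, zero_add, pow_one, pow_zero]
    conv_lhs => rw [hz]
    refine Finset.sum_congr rfl fun p _ => ?_
    rw [Finset.sum_eq_single p]
    · rw [Matrix.one_apply_eq, mul_one]
    · intro q _ hq
      rw [Matrix.one_apply_ne (Ne.symm hq), mul_zero, zero_mul]
    · intro h
      exact absurd (Finset.mem_univ p) h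
  | succ k ih =>
    have h1 : z ^ (2 * (k + 1) + 1) = z ^ (2 * k + 1) * z * z := by
      rw [mul_assoc, ← pow_two, ← pow_add]
      congr 1
    rw [h1, ih, Finset.sum_mul, Finset.sum_mul]
    refine Finset.sum_congr rfl fun p _ => ?_
    have h2 : ∀ q, b p * (M ^ (k + 1)) p q * a q =
        ∑ r, b p * (M ^ k) p r * a r * z * (b q * a q) := by
      intro q
      rw [pow_succ, Matrix.mul_apply, Finset.mul_sum, Finset.sum_mul]
      refine Finset.sum_congr rfl fun r _ => ?_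
      rw [hM r q]
      simp only [mul_assoc]
    rw [Finset.sum_congr rfl fun q _ => h2 q, Finset.sum_comm, Finset.sum_mul, Finset.sum_mul]
    refine Finset.sum_congr rfl fun r _ => ?_
    rw [← Finset.mul_sum, ← hz]

theorem nn_nilpotent {N : Set T.ι} (h : T.Facts N) {x : T.ι} {z : T.C} (hz : z ∈ T.nn N x) :
    IsNilpotent z := by
  obtain ⟨hz1, hz2⟩ : z ∈ T.Fac N x x (T.dim x) ∧ T.R z = 0 := hz
  obtain ⟨n, j, r, s, b, a, hj, hrs, hb, ha, hsum⟩ := exists_fac_sum hz1
  have hzC : z ∈ T.CH x x (T.dim x) := fac_le _ _ _ _ hz1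
  let M : Matrix (Fin n) (Fin n) T.C := Matrix.of fun p q => a p * z * b q
  have hM : ∀ p q, M p q = a p * z * b q := fun p q => rfl
  obtain ⟨K, hK⟩ := h.nil n j s M hj (fun p q => by
      rw [hM]
      have h1 := T.mul_mem (T.mul_mem (ha p) hzC) (hb q)
      have h2 : s p + (T.dim x : ℤ) - T.dim x + r q - T.dim x = T.dim (j q) + s p - s q := by
        have := hrs q
        linarith
      rwa [h2] at h1) (fun p q => by
      rw [hM, map_mul, map_mul, hz2, mul_zero, zero_mul])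
  refine ⟨2 * K + 1, ?_⟩
  rw [sd_B_pow hsum M hM K, hK]
  refine Finset.sum_eq_zero fun p _ => Finset.sum_eq_zero fun q _ => ?_
  rw [Matrix.zero_apply, mul_zero, zero_mul]

end Cycles

end SDCK
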