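import Pool.Agent.LibSD51.Family

/-!
[SE F1] Algebra: orthogonal idempotents modulo a nil ideal `K` lift.

Mathlib: `OrthogonalIdempotents.lift_of_isNilpotent_ker` for the quotient map `A → A ⧸ K`: make a
`TwoSidedIdeal A` (`TwoSidedIdeal.mk'`) with carrier `K` (negatives: `K.mul (-1) a _ 1`), the quotient is
`I.ringCon.Quotient`, the map `I.ringCon.mk'`, its kernel `K` (`TwoSidedIdeal.mem_iff`, `RingCon.eq`,
`TwoSidedIdeal.ker_ringCon_mk'`). The lifts `q'` satisfy `mk (q' i) = mk (q i)`, i.e. `q' i - q i ∈ K`.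
-/

set_option autoImplicit false

namespace SDCK

universe u v

theorem lift_ortho {A : Type u} [Ring A] {K : Set A} (hK : IsIdeal K)
    (hnil : ∀ a ∈ K, IsNilpotent a) {n : ℕ} (q : Fin n → A)
    (hq : ∀ i, q i * q i - q i ∈ K) (hq' : ∀ i j, i ≠ j → q i * q j ∈ K) :
    ∃ q' : Fin n → A, OrthogonalIdempotents q' ∧ ∀ i, q' i - q i ∈ K := by
  let I : TwoSidedIdeal A := TwoSidedIdeal.mk' K hK.zero (fun {x y} hx hy => hK.add x hx y hy)
    (fun {x} hx => by
      have h := hK.mul (-1) x hx 1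
      rwa [mul_one, neg_one_mul] at h)
    (fun {x y} hy => by
      have h := hK.mul x y hy 1
      rwa [mul_one] at h)
    (fun {x y} hx => by
      have h := hK.mul 1 x hx y
      rwa [one_mul] at h)
  have hI : ∀ a, a ∈ I ↔ a ∈ K := fun a => TwoSidedIdeal.mem_mk' _ _ _ _ _ _ a
  let f : A →+* I.ringCon.Quotient := I.ringCon.mk'
  have hker : ∀ a, f a = 0 ↔ a ∈ K := by
    intro a
    rw [← hI a]
    have h := TwoSidedIdeal.ker_ringCon_mk' I
    constructor
    · intro ha
      rw [← h]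
      exact (TwoSidedIdeal.mem_ker _).2 ha
    · intro ha
      rw [← h] at ha
      exact (TwoSidedIdeal.mem_ker _).1 ha
  obtain ⟨q', h1, h2⟩ := OrthogonalIdempotents.lift_of_isNilpotent_ker f
    (fun x hx => hnil x ((hker x).1 hx)) (e := fun i => f (q i))
    ⟨fun i => by
      change f (q i) * f (q i) = f (q i)
      rw [← sub_eq_zero, ← map_mul, ← map_sub]
      exact (hker _).2 (hq i), fun i j hij => by
      change f (q i) * f (q j) = 0
      rw [← map_mul]
      exact (hker _).2 (hq' i j hij)⟩ (fun i => ⟨q i, rfl⟩)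
  refine ⟨q', h1, fun i => (hker _).1 ?_⟩
  have h3 : f (q' i) = f (q i) := congrFun h2 i
  rw [map_sub, h3, sub_self]

end SDCK
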