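import Pool.Agent.LibSD67.Defs

/-!
[SE A] The ideals `Fac`. All proofs: span induction (see `mul_through`, `through_mul`, `through_le` in
LibSD51/Main for the pattern: `Submodule.span_le.2` and `Submodule.comap (LinearMap.mulLeft ℚ g)`).
* `fac_le`: `T.mul_mem`, `r + s - dim o = c`.
* `mul_fac`: `g * (a * b) = (g * a) * b`, `g * a ∈ CH o k (e + r - dim j)`.
* `fac_mul`: `(a * b) * g = a * (b * g)`.
* `fac_star`: `star (a * b) = star b * star a`, `star b ∈ CH o i s`, `star a ∈ CH j o r`.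
  (`star` is additive and commutes with rational scalars: `star_rat_smul`; or use `Submodule.span_induction`.)
* `fac_mono`: `Submodule.span_mono`.
* `through_le_fac`: `r = dim o`, `s = dim x`.
* `fac_fac`: `g * z * h` for `z` a correspondence factoring through `S'` (`b * c * a`).
-/

set_option autoImplicit false

namespace SDCK

universe u v

namespace Cycles

variable {T : Cycles.{u, v}}

/-- a member of `S` and correspondences of the right codimensions -/
theorem mem_fac {S : Set T.ι} {i j o : T.ι} {c r s : ℤ} {a b : T.C} (ho : o ∈ S)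
    (h : r + s = c + T.dim o) (ha : a ∈ T.CH o j r) (hb : b ∈ T.CH i o s) :
    a * b ∈ T.Fac S i j c :=
  Submodule.subset_span ⟨o, ho, r, s, h, a, ha, b, hb, rfl⟩

theorem fac_le (S : Set T.ι) (i j : T.ι) (c : ℤ) : T.Fac S i j c ≤ T.CH i j c := by
  refine Submodule.span_le.2 ?_
  rintro _ ⟨o, ho, r, s, h, a, ha, b, hb, rfl⟩
  have h1 := T.mul_mem ha hb
  have h2 : r + s - (T.dim o : ℤ) = c := by omega
  rw [h2] at h1
  exact h1

theorem mul_fac {S : Set T.ι} {i j k : T.ι} {c e : ℤ} {g z : T.C} (hg : g ∈ T.CH j k e)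
    (hz : z ∈ T.Fac S i j c) : g * z ∈ T.Fac S i k (e + c - T.dim j) := by
  have h1 : T.Fac S i j c ≤ (T.Fac S i k (e + c - T.dim j)).comap (LinearMap.mulLeft ℚ g) := by
    refine Submodule.span_le.2 ?_
    rintro _ ⟨o, ho, r, s, h, a, ha, b, hb, rfl⟩
    show g * (a * b) ∈ T.Fac S i k (e + c - T.dim j)
    rw [← mul_assoc]
    exact mem_fac ho (by omega) (T.mul_mem hg ha) hb
  exact h1 hz

theorem fac_mul {S : Set T.ι} {i j k : T.ι} {c e : ℤ} {g z : T.C} (hz : z ∈ T.Fac S i j c)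
    (hg : g ∈ T.CH k i e) : z * g ∈ T.Fac S k j (c + e - T.dim i) := by
  have h1 : T.Fac S i j c ≤ (T.Fac S k j (c + e - T.dim i)).comap (LinearMap.mulRight ℚ g) := by
    refine Submodule.span_le.2 ?_
    rintro _ ⟨o, ho, r, s, h, a, ha, b, hb, rfl⟩
    show (a * b) * g ∈ T.Fac S k j (c + e - T.dim i)
    rw [mul_assoc]
    exact mem_fac ho (by omega) ha (T.mul_mem hb hg)
  exact h1 hz

theorem fac_star {S : Set T.ι} {i j : T.ι} {c : ℤ} {z : T.C} (hz : z ∈ T.Fac S i j c) :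
    star z ∈ T.Fac S j i c := by
  unfold Fac at hz
  induction hz using Submodule.span_induction with
  | mem z hz =>
    obtain ⟨o, ho, r, s, h, a, ha, b, hb, rfl⟩ := hz
    rw [star_mul]
    exact mem_fac ho (by omega) (T.star_mem hb) (T.star_mem ha)
  | zero =>
    rw [star_zero]
    exact Submodule.zero_mem _
  | add a b _ _ ha hb =>
    rw [star_add]
    exact Submodule.add_mem _ ha hb
  | smul q a _ ha =>
    rw [star_rat_smul]
    exact Submodule.smul_mem _ q ha

theorem fac_mono {S S' : Set T.ι} (h : S ⊆ S') (i j : T.ι) (c : ℤ) :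
    T.Fac S i j c ≤ T.Fac S' i j c := by
  refine Submodule.span_mono ?_
  rintro _ ⟨o, ho, r, s, hrs, a, ha, b, hb, rfl⟩
  exact ⟨o, h ho, r, s, hrs, a, ha, b, hb, rfl⟩

theorem through_le_fac {x : T.ι} {w : ℕ} {S : Set T.ι} (h : ∀ o, T.dim o ≤ w → o ∈ S) :
    T.Through x w ≤ T.Fac S x x (T.dim x) := by
  refine Submodule.span_le.2 ?_
  rintro _ ⟨o, ho, a, ha, b, hb, rfl⟩
  exact mem_fac (h o ho) (by omega) ha hb

theorem star_mem_gen {N : Set T.ι} {x : T.ι} {z : T.C} (hz : z ∈ T.Gen N x) :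
    star z ∈ T.Gen N x :=
  fac_star hz

theorem gen_le {N : Set T.ι} {x : T.ι} : T.Gen N x ≤ T.CH x x (T.dim x) :=
  fac_le _ _ _ _

private theorem sd_A_conj {S : Set T.ι} {x y : T.ι} (hxy : T.dim x = T.dim y) {g z h : T.C}
    (hg : g ∈ T.CH x y (T.dim x)) (hz : z ∈ T.Fac S x x (T.dim x))
    (hh : h ∈ T.CH y x (T.dim x)) : g * z * h ∈ T.Fac S y y (T.dim y) := by
  have h1 := fac_mul (mul_fac hg hz) hh
  have h2 : (T.dim x : ℤ) + T.dim x - T.dim x + T.dim x - T.dim x = T.dim y := by omega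
  rw [h2] at h1
  exact h1

/-- `Gen` is a two-sided ideal, and more generally composition with correspondences of degree `0`
from and to `V y`, `dim V y = dim V x`. -/
theorem mul_gen_mul {N : Set T.ι} {x y : T.ι} (hxy : T.dim x = T.dim y) {g z h : T.C}
    (hg : g ∈ T.CH x y (T.dim x)) (hz : z ∈ T.Gen N x) (hh : h ∈ T.CH y x (T.dim x)) :
    g * z * h ∈ T.Gen N y :=
  sd_A_conj hxy hg hz hh

theorem mul_nn_mul {N : Set T.ι} {x y : T.ι} (hxy : T.dim x = T.dim y) {g z h : T.C}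
    (hg : g ∈ T.CH x y (T.dim x)) (hz : z ∈ T.nn N x) (hh : h ∈ T.CH y x (T.dim x)) :
    g * z * h ∈ T.nn N y := by
  refine ⟨sd_A_conj hxy hg hz.1 hh, ?_⟩
  rw [map_mul, map_mul, hz.2, mul_zero, zero_mul]

theorem nn_le_gen {N : Set T.ι} {x : T.ι} : T.nn N x ≤ T.Gen N x := fun _ hz =>
  fac_mono (fun _ ho => Or.inl ho) x x _ hz.1

end Cycles

end SDCK
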