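import Pool.Agent.LibSD67.A

/-!
[SE C] Weights in cohomology (adapted from [SE C]; only the `Sfc` part of `wt_le`, `wt_le_gen`, `wt_R` is new).

* `wt_le`: Tame: `fac_le`; Sfc: `b * p k * a ∈ CH x x (dim j + ρ + dim j - dim j + dim x - ρ - dim j)`.
* `wt_le_gen`: Tame: `fac_mono`; Sfc: `b * (p k * a)` through `j`, `dim j ≤ 2` (`mem_fac`).
* `commute_π`: `g ∈ CH x x (dim x)`: `π l * R g * π k = 0` for `l ≠ k` (`h.deg` with `c = dim x`);
  `R g = R (Δ * g * Δ) = (∑ l, π l) * R g * (∑ k, π k)` (`T.π_sum`).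
* `wt_R`: `z ∈ Wt N x P`, `¬ P m`: `R z * π m = 0`. Tame: definition. Sfc: `R (b * p k * a) * π m =
  R b * (π j k * R a * π x m)` and `h.deg` for `a ∈ CH x j (dim x - ρ)`: `k ≠ m + 2 (dim x - ρ - dim x)`.
* `wt_R'`: `commute_π`. `R_mul_mul`: see [SE C].
-/

set_option autoImplicit false

namespace SDCK

universe u v

namespace Cycles

variable {T : Cycles.{u, v}}

private theorem se_C_sfc_le {x : T.ι} {mid : Prop} {P : ℤ → Prop} :
    T.Sfc x mid P ≤ T.CH x x (T.dim x) := by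
  refine Submodule.span_le.2 ?_
  rintro _ ⟨j, p, k, ρ, hj, hp, -, -, b, hb, a, ha, rfl⟩
  have h := T.mul_mem (T.mul_mem hb (hp.1.1.1 k)) ha
  have h1 : ((T.dim j : ℤ) + ρ) + T.dim j - (T.dim j : ℤ) + ((T.dim x : ℤ) - ρ) - T.dim j
      = T.dim x := by ring
  rwa [h1] at h

theorem wt_le {N : Set T.ι} {x : T.ι} {P : ℤ → Prop} : T.Wt N x P ≤ T.CH x x (T.dim x) :=
  sup_le (fun _ hz => fac_le _ _ _ _ hz.1) se_C_sfc_le

theorem wt_le_gen {N : Set T.ι} {x : T.ι} {P : ℤ → Prop} : T.Wt N x P ≤ T.Gen N x := by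
  refine sup_le (fun z hz => fac_mono (fun o ho => Or.inl ho) _ _ _ hz.1) ?_
  refine Submodule.span_le.2 ?_
  rintro _ ⟨j, p, k, ρ, hj, hp, -, -, b, hb, a, ha, rfl⟩
  have h := T.mul_mem hb (hp.1.1.1 k)
  have h1 : ((T.dim j : ℤ) + ρ) + T.dim j - (T.dim j : ℤ) = T.dim j + ρ := by ring
  rw [h1] at h
  refine mem_fac (o := j) (Or.inr hj) ?_ h ha
  ring

/-- the same for two varieties of the same dimension -/
theorem commute_π' {N : Set T.ι} (h : T.Facts N) {x y : T.ι} (hxy : T.dim x = T.dim y) {g : T.C}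
    (hg : g ∈ T.CH x y (T.dim x)) (k : Fin (2 * T.dim x + 1)) (l : Fin (2 * T.dim y + 1))
    (hkl : (k : ℕ) = l) : T.R g * T.π x k = T.π y l * T.R g := by
  have h1 : T.R g * T.π x k = T.π y l * T.R g * T.π x k := by
    have h2 : T.R g = (∑ l', T.π y l') * T.R g := by
      rw [T.π_sum, ← map_mul, T.Δ_mul hg]
    conv_lhs => rw [h2]
    rw [Finset.sum_mul, Finset.sum_mul, Finset.sum_eq_single l]
    · intro l' _ hl'
      refine h.deg hg k l' ?_
      intro h3
      apply hl'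
      apply Fin.ext
      omega
    · intro h3
      exact absurd (Finset.mem_univ l) h3
  have h2 : T.π y l * T.R g = T.π y l * T.R g * T.π x k := by
    have h3 : T.R g = T.R g * (∑ k', T.π x k') := by
      rw [T.π_sum, ← map_mul, T.mul_Δ hg]
    conv_lhs => rw [h3]
    rw [Finset.mul_sum, Finset.mul_sum, Finset.sum_eq_single k]
    · rw [mul_assoc]
    · intro k' _ hk'
      rw [← mul_assoc]
      refine h.deg hg k' l ?_
      intro h3
      apply hk'
      apply Fin.ext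
      omega
    · intro h3
      exact absurd (Finset.mem_univ k) h3
  rw [h1, ← h2]

theorem commute_π {N : Set T.ι} (h : T.Facts N) {x : T.ι} {g : T.C}
    (hg : g ∈ T.CH x x (T.dim x)) (k : Fin (2 * T.dim x + 1)) :
    T.R g * T.π x k = T.π x k * T.R g :=
  commute_π' h rfl hg k k rfl

theorem wt_R {N : Set T.ι} (h : T.Facts N) {x : T.ι} {P : ℤ → Prop} {z : T.C}
    (hz : z ∈ T.Wt N x P) (m : Fin (2 * T.dim x + 1)) (hm : ¬ P ((m : ℕ) : ℤ)) :
    T.R z * T.π x m = 0 := by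
  obtain ⟨t, ht, w, hw, rfl⟩ := Submodule.mem_sup.mp hz
  rw [map_add, add_mul, ht.2 m hm, zero_add]
  unfold Sfc at hw
  clear hz
  induction hw using Submodule.span_induction with
  | mem w hw =>
    obtain ⟨j, p, k, ρ, hj, hp, -, hP, b, hb, a, ha, rfl⟩ := hw
    have h1 := h.deg ha m k (by
      intro h3
      apply hm
      have h4 : ((m : ℕ) : ℤ) = (k : ℕ) + 2 * ρ := by linarith
      rw [h4]
      exact hP)
    rw [map_mul, map_mul, hp.1.1.2.2.2 k]
    have h2 : T.R b * T.π j k * T.R a * T.π x m =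
        T.R b * (T.π j k * T.R a * T.π x m) := by
      simp only [mul_assoc]
    rw [h2, h1, mul_zero]
  | zero => rw [map_zero, zero_mul]
  | add u v _ _ hu hv => rw [map_add, add_mul, hu, hv, add_zero]
  | smul q u _ hu =>
    have h1 : T.R (q • u) = T.R (q • (1 : T.C)) * T.R u := by
      rw [← map_mul, smul_mul_assoc, one_mul]
    rw [h1, mul_assoc, hu, mul_zero]

theorem wt_R' {N : Set T.ι} (h : T.Facts N) {x : T.ι} {P : ℤ → Prop} {z : T.C}
    (hz : z ∈ T.Wt N x P) (m : Fin (2 * T.dim x + 1)) (hm : ¬ P ((m : ℕ) : ℤ)) :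
    T.π x m * T.R z = 0 := by
  rw [← commute_π h (wt_le hz) m]
  exact wt_R h hz m hm

theorem R_mul_mul {N : Set T.ι} (h : T.Facts N) {x : T.ι} {P Q : ℤ → Prop}
    (hPQ : ∀ m, P m → ¬ Q m) {u g v : T.C} (hu : u ∈ T.Wt N x P)
    (hg : g ∈ T.CH x x (T.dim x)) (hv : v ∈ T.Wt N x Q) : T.R (u * g * v) = 0 := by
  rw [map_mul, map_mul]
  have h1 : T.R u = ∑ m, T.R u * T.π x m := by
    rw [← Finset.mul_sum, T.π_sum, ← map_mul, T.mul_Δ (wt_le hu)]
  rw [h1, Finset.sum_mul, Finset.sum_mul]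
  refine Finset.sum_eq_zero fun m _ => ?_
  by_cases hm : P ((m : ℕ) : ℤ)
  · have h2 : T.R u * T.π x m * T.R g * T.R v = T.R u * T.R g * (T.π x m * T.R v) := by
      rw [mul_assoc (T.R u), ← commute_π h hg m]
      simp only [mul_assoc]
    rw [h2, wt_R' h hv m (hPQ _ hm), mul_zero]
  · rw [wt_R h hu m hm, zero_mul, zero_mul]

end Cycles

end SDCK
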