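import Pool.Agent.LibSD67.Defs

/-!
[SE M1] Murre decompositions of points and curves, from a lift of `π 0` that factors through points.

PROOF. `selfDual_of_lower` (LibSD51/Main) with `w = 0` (`2 * 0 ≤ dim i + 1`) and the family `p : Fin (dim i) → C`,
`p k = e` (for `dim i = 1`: one element; for `dim i = 0`: empty), gives `P` self-dual with `P (low k) ∈ Through i 0`.
For `dim i = 1`: `c ∈ Through i 0`, `R c = π 0`. `n = c * c - c`, `R n = 0`; `n * z = 0` for `z ∈ Through i 0`: for
`z = β * α`, `β ∈ CH o i (dim o)`, `dim o = 0`: `n * β ∈ CH o i (1 + 0 - 1)`, `R (n * β) = 0`, so `0` by `T.CH_zero`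
(`eq_zero_of_span` with `AddMonoidHom.mulLeft n`). So `c * c * c = c * c`, `e = c * c` is idempotent,
`R e = π 0`, `e ∈ Through i 0` (`mul_through`).
`P 1` for `dim i = 1`: `P 1 = P 1 * Δ i` goes through `i` itself (`dim i ≤ 1`), `P 0` for `dim i = 0`: the same.
`P 0` for `dim i = 1`: `P (low 0)`.
-/

set_option autoImplicit false

namespace SDCK

universe u v

namespace Cycles

variable {T : Cycles.{u, v}}

private theorem se_M1_idem {i : T.ι} {c : T.C} (hc : c ∈ T.Through i 0)
    (hR : T.R (c * c - c) = 0) : c * c * (c * c) = c * c := by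
  have hcm : c ∈ T.CH i i (T.dim i) := through_le hc
  have hn : c * c - c ∈ T.CH i i (T.dim i) := by
    refine Submodule.sub_mem _ ?_ hcm
    have h := T.mul_mem hcm hcm
    have h1 : (T.dim i : ℤ) + T.dim i - T.dim i = T.dim i := by ring
    rwa [h1] at h
  have h0 : (c * c - c) * c = 0 := by
    refine eq_zero_of_span (AddMonoidHom.mulLeft (c * c - c)) ?_ _ hc
    rintro _ ⟨j, hj, a, ha, b, hb, rfl⟩
    have h1 := T.mul_mem hn ha
    have h2 : (T.dim i : ℤ) + T.dim j - T.dim i = 0 := by omega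
    rw [h2] at h1
    have h3 : (c * c - c) * a = 0 := T.CH_zero h1 (by rw [map_mul, hR, zero_mul])
    show (c * c - c) * (a * b) = 0
    rw [← mul_assoc, h3, zero_mul]
  have h1 : c * c * c = c * c := by
    rw [sub_mul, sub_eq_zero] at h0
    exact h0
  rw [← mul_assoc, h1, h1]

private theorem se_M1_self {i : T.ι} {w : ℕ} (hi : T.dim i ≤ w) {z : T.C}
    (hz : z ∈ T.CH i i (T.dim i)) : z ∈ T.Through i w :=
  Submodule.subset_span ⟨i, hi, z, hz, T.Δ i, T.Δ_mem i, T.mul_Δ hz⟩

theorem murre_le_one {i : T.ι} (hi : T.dim i ≤ 1)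
    (h0 : ∀ k : Fin (2 * T.dim i + 1), (k : ℕ) = 0 → ∃ c ∈ T.Through i 0, T.R c = T.π i k) :
    ∃ p, T.IsMurre i p := by
  obtain ⟨c, hc, hRc⟩ := h0 ⟨0, by omega⟩ rfl
  have hcm : c ∈ T.CH i i (T.dim i) := through_le hc
  have hππ : T.π i ⟨0, by omega⟩ * T.π i ⟨0, by omega⟩ = T.π i ⟨0, by omega⟩ :=
    ((T.π_ortho i).idem _).eq
  have hRn : T.R (c * c - c) = 0 := by
    rw [map_sub, map_mul, hRc, hππ, sub_self]
  have hce : c * c ∈ T.Through i 0 := mul_through hcm hc
  obtain ⟨P, hP, hT⟩ := selfDual_of_lower i 0 (by omega) (fun _ : Fin (T.dim i) => c * c)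
    (fun _ => through_le hce)
    ⟨fun _ => se_M1_idem hc hRn, fun k l hkl => by
      exfalso
      apply hkl
      apply Fin.ext
      have h1 := k.2
      have h2 := l.2
      omega⟩
    (fun k => by
      have h1 : low T k = ⟨0, by omega⟩ := by
        apply Fin.ext
        have h1 := k.2
        show (k : ℕ) = 0
        omega
      rw [h1, map_mul, hRc, hππ])
    (Submodule.sum_mem _ fun _ _ => hce)
  refine ⟨P, hP, ?_, ?_⟩
  · intro k hk
    by_cases h1 : T.dim i = 0
    · exact se_M1_self h1.le (hP.1.1 k)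
    · have h2 : k = low T ⟨0, by omega⟩ := by
        apply Fin.ext
        exact hk
      rw [h2]
      exact hT _
  · intro k _
    exact se_M1_self hi (hP.1.1 k)

theorem murre1 {N : Set T.ι} (h : T.Facts N) (i : T.ι) (hi : T.dim i ≤ 1) :
    ∃ p, T.IsMurre i p :=
  murre_le_one hi (h.zero i (by omega))

end Cycles

end SDCK
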