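import Pool.Agent.LibSD67.V1
import Pool.Agent.LibSD67.M1

/-!
[SE V2] **Vanishing between the pieces of Murre decompositions in dimension at most `2`.**

`van`: `f := q l * z * p k ∈ CH i j c` (codimensions `dim j + c - dim j + dim i - dim i`), `R f = 0`,
`k + 2 (c - dim i) ≤ l`, strictly unless neither piece is the middle piece of a surface. Claim `f = 0`.
PROOF. Strong induction on `c` (for all `i j p q z k l` simultaneously; e.g. prove
`∀ n : ℕ, ∀ c : ℤ, c ≤ n → ...` by induction on `n`). The `p`, `q` are orthogonal idempotents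
(`hp.1.1.2.1`), `∑ p = Δ`, `star (p k) = p k.rev`, `T.R (p k) = π i k`, `p k ∈ CH i i (dim i)`.
* `c ≤ 0`: `zero_of_R`.
* `c = 1`: `f = q l * f * p k`, `f ∈ span` of `T.CH_one`: terms `q l * (x * y) * p k = (q l * x) * (y * p k)`.
  First kind: `x ∈ CH o j 0`, `y ∈ CH i o 1`, `R y = 0`: `l ≠ 0`: `mul_fund`. `l = 0`: `k ≤ 2 dim i - 2`, so
  `dim i = 1`, `k = 0`, or `dim i = 2`, `k ≤ 2`; `k = 2` is the case of equality with the middle piece of a surface,
  excluded; the others: `pic_mul`.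
  Second kind: `x ∈ CH o j 1`, `R x = 0`, `y ∈ CH i o 0`: `k ≠ 2 dim i`: `fund_mul`. `k = 2 dim i`: `2 ≤ l`; `l = 2`:
  equality, so not (`dim j = 2`), so `dim j = 1`, `l = 2 dim j`: `mul_pic`; `l = 3, 4`: `dim j = 2`, `mul_pic`.
* `c ≥ 2`. `caseK` (from the induction hypothesis for codimensions `< c`): if `k = 0`, `dim i ≥ 1`, or `k = 1`,
  `dim i = 2`, then `f = 0`. By transposition (`star f = p k.rev * star z * q l.rev`, `star z ∈ CH j i c`; the inequality,
  and the exclusion of middle pieces, are symmetric: `(2 dim j - l) + 2 (c - dim j) ≤ 2 dim i - k`) also `f = 0` if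
  `l = 2 dim j`, `dim j ≥ 1`, or `l = 3`, `dim j = 2`. Nothing else remains: if `dim i = 0`: `k = 0`,
  `l ≥ 2 c ≥ 4`, so `dim j = 2`, `l = 4`. If `dim i = 1`, `k ≥ 1`: `l ≥ 1 + 2 (c - 1) ≥ 3`, so `dim j = 2` and `l = 3`
  or `4`. If `dim i = 2`, `k ≥ 2`: `l ≥ 2 + 2 (c - 2) ≥ 2`; `l ≥ 3`: `dim j = 2`, `l = 3, 4`; `l = 2`: then `k = 2`,
  `c = 2`, equality, excluded (`dim i = 2`, `k = 2` middle).
  PROOF of `caseK`. `k = 0`: `p 0` is a sum of `β * α`, `β ∈ CH o i 0`, `α ∈ CH i o (dim i)`, `dim o = 0`;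
  `f = f * p 0` is the sum of `(f * β) * α`; `g = f * β ∈ CH o j (c - dim i)`, `R g = 0`,
  `g = q l * g * r 0` for a Murre decomposition `r` of `V o` (`h.murre`, `r 0 = ∑ r = Δ o`), so `g = 0` by induction
  (`0 + 2 (c - dim i) ≤ l`, strict if the given inequality is strict, and `V o` is no surface).
  `k = 1`, `dim i = 2`: `f = f * p 1 * p 1` is the sum of `g * α * p 1`, `g = f * β ∈ CH C j (c + dim C - 2)`, `R g = 0`,
  `α ∈ CH i C 2`, `dim C ≤ 1`; `r` a Murre decomposition of `V C`: `g * α * p 1 = ∑ m, (g * r m) * (r m * α * p 1)`;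
  `m = 2`: `top_alpha`. `m = 0, 1`: `g * r m = q l * g * r m = 0` by induction (`R (g * r m) = 0`;
  `m + 2 (c + dim C - 2 - dim C) ≤ 1 + 2 (c - 2) ≤ l`, strict if `m = 0` or the given inequality is strict; if it
  is an equality and `m = 1`, then `V C` is no surface and the piece `l` is not the middle of a surface, as given).
* `van_strict`: for `k + 2 (c - dim i) < l` the hypothesis `R f = 0` holds by `h.deg`.
-/

set_option autoImplicit false

namespace SDCK

universe u v

namespace Cycles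

variable {T : Cycles.{u, v}}

/-- the statement in codimension `c` -/
private def VanP (T : Cycles.{u, v}) (c : ℤ) : Prop :=
  ∀ (i j : T.ι), T.dim i ≤ 2 → T.dim j ≤ 2 → ∀ p, T.IsMurre i p → ∀ q, T.IsMurre j q →
    ∀ z ∈ T.CH i j c, ∀ (k : Fin (2 * T.dim i + 1)) (l : Fin (2 * T.dim j + 1)),
      ((k : ℕ) : ℤ) + 2 * (c - T.dim i) ≤ (l : ℕ) →
      (((k : ℕ) : ℤ) + 2 * (c - T.dim i) < (l : ℕ) ∨
        (¬ (T.dim i = 2 ∧ (k : ℕ) = 2) ∧ ¬ (T.dim j = 2 ∧ (l : ℕ) = 2))) →
      T.R (q l * z * p k) = 0 → q l * z * p k = 0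

private theorem se_V2_mem {i j : T.ι} {p : Fin (2 * T.dim i + 1) → T.C} (hp : T.IsMurre i p)
    {q : Fin (2 * T.dim j + 1) → T.C} (hq : T.IsMurre j q) {c : ℤ} {z : T.C}
    (hz : z ∈ T.CH i j c) (k : Fin (2 * T.dim i + 1)) (l : Fin (2 * T.dim j + 1)) :
    q l * z * p k ∈ T.CH i j c := by
  have h := T.mul_mem (T.mul_mem (hq.1.1.1 l) hz) (hp.1.1.1 k)
  have h1 : (T.dim j : ℤ) + c - T.dim j + T.dim i - T.dim i = c := by ring
  rwa [h1] at h

private theorem se_V2_sum {i j : T.ι} {p : Fin (2 * T.dim i + 1) → T.C} (hp : T.IsMurre i p)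
    {c : ℤ} {g : T.C} (hg : g ∈ T.CH i j c) : g = ∑ m, g * p m := by
  rw [← Finset.mul_sum, hp.1.1.2.2.1, T.mul_Δ hg]

private theorem se_V2_caseK {N : Set T.ι} (h : T.Facts N) {c : ℤ}
    (ih : ∀ c', c' < c → VanP T c') {i j : T.ι} (hi : T.dim i ≤ 2) (hj : T.dim j ≤ 2)
    {p : Fin (2 * T.dim i + 1) → T.C} (hp : T.IsMurre i p)
    {q : Fin (2 * T.dim j + 1) → T.C} (hq : T.IsMurre j q) {f : T.C} (hf : f ∈ T.CH i j c)
    (k : Fin (2 * T.dim i + 1)) (l : Fin (2 * T.dim j + 1))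
    (hkl : ((k : ℕ) : ℤ) + 2 * (c - T.dim i) ≤ (l : ℕ))
    (hm : ((k : ℕ) : ℤ) + 2 * (c - T.dim i) < (l : ℕ) ∨ ¬ (T.dim j = 2 ∧ (l : ℕ) = 2))
    (hR : T.R f = 0) (hqf : q l * f = f) (hfp : f * p k = f)
    (hk : ((k : ℕ) = 0 ∧ 1 ≤ T.dim i) ∨ ((k : ℕ) = 1 ∧ T.dim i = 2)) : f = 0 := by
  -- the pieces of a correspondence from a variety of dimension at most one
  have key : ∀ (C : T.ι) (hC : T.dim C ≤ 1) (r : Fin (2 * T.dim C + 1) → T.C)
      (_ : T.IsMurre C r) (a : T.C) (_ : a ∈ T.CH C i (T.dim C)) (_ : T.dim C < T.dim i)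
      (m : Fin (2 * T.dim C + 1)) (_ : (m : ℕ) ≤ k), f * a * r m = 0 := by
    intro C hC r hr a ha hCi m hmk
    have h1 : f * a ∈ T.CH C j (c + T.dim C - T.dim i) := T.mul_mem hf ha
    have h2 : q l * (f * a) * r m = f * a * r m := by rw [← mul_assoc (q l), hqf]
    have h3 := ih (c + T.dim C - T.dim i) (by omega) C j (by omega) hj r hr q hq _ h1 m l
      (by omega) (by
        rcases hm with hm | hm
        · left
          omega
        · right
          exact ⟨by omega, hm⟩)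
      (by rw [h2, map_mul, map_mul, hR, zero_mul, zero_mul])
    rwa [h2] at h3
  rcases hk with ⟨hk, hi1⟩ | ⟨hk, hi2⟩
  · have h1 : f * p k = 0 := by
      refine eq_zero_of_span (AddMonoidHom.mulLeft f) ?_ _ (hp.2.1 k hk)
      rintro _ ⟨o, ho, a, ha, b, -, rfl⟩
      change f * (a * b) = 0
      obtain ⟨r, hr⟩ := murre1 h o (by omega)
      have h2 : f * a ∈ T.CH o j (c + T.dim o - T.dim i) := T.mul_mem hf ha
      have h3 : f * a = 0 := by
        rw [se_V2_sum hr h2]
        refine Finset.sum_eq_zero fun m _ => key o (by omega) r hr a ha (by omega) m ?_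
        have h4 := m.isLt
        omega
      rw [← mul_assoc, h3, zero_mul]
    rw [← hfp, h1]
  · have h1 : f * p k * p k = 0 := by
      refine eq_zero_of_span ((AddMonoidHom.mulRight (p k)).comp (AddMonoidHom.mulLeft f)) ?_ _
        (hp.2.2 k hk)
      rintro _ ⟨C, hC, a, ha, b, hb, rfl⟩
      change f * (a * b) * p k = 0
      obtain ⟨r, hr⟩ := murre1 h C hC
      have h2 : f * a ∈ T.CH C j (c + T.dim C - T.dim i) := T.mul_mem hf ha
      have h3 : f * (a * b) * p k = ∑ m, f * a * r m * (r m * b * p k) := by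
        have h4 : f * (a * b) * p k = f * a * (b * p k) := by simp only [mul_assoc]
        rw [h4]
        conv_lhs => rw [se_V2_sum hr h2]
        rw [Finset.sum_mul]
        refine Finset.sum_congr rfl fun m _ => ?_
        have h5 : r m * r m = r m := (hr.1.1.2.1.idem m).eq
        have h6 : f * a * r m * (r m * b * p k) = f * a * (r m * r m) * (b * p k) := by
          simp only [mul_assoc]
        rw [h6, h5]
      rw [h3]
      refine Finset.sum_eq_zero fun m _ => ?_
      have hmlt := m.isLt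
      by_cases hm2 : (m : ℕ) = 2
      · have hb' : b ∈ T.CH i C 2 := by
          rw [hi2] at hb
          exact_mod_cast hb
        rw [top_alpha h hi2 hC hp hr hb' k hk m hm2, mul_zero]
      · rw [key C hC r hr a ha (by omega) m (by omega), zero_mul]
    rw [hfp, hfp] at h1
    exact h1

private theorem se_V2_one {N : Set T.ι} (h : T.Facts N) {i j : T.ι} (hi : T.dim i ≤ 2)
    (hj : T.dim j ≤ 2) {p : Fin (2 * T.dim i + 1) → T.C} (hp : T.IsMurre i p)
    {q : Fin (2 * T.dim j + 1) → T.C} (hq : T.IsMurre j q) {f : T.C} (hf : f ∈ T.CH i j 1)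
    (k : Fin (2 * T.dim i + 1)) (l : Fin (2 * T.dim j + 1))
    (hkl : ((k : ℕ) : ℤ) + 2 * (1 - T.dim i) ≤ (l : ℕ))
    (hm : ((k : ℕ) : ℤ) + 2 * (1 - T.dim i) < (l : ℕ) ∨
      (¬ (T.dim i = 2 ∧ (k : ℕ) = 2) ∧ ¬ (T.dim j = 2 ∧ (l : ℕ) = 2)))
    (hR : T.R f = 0) (hqf : q l * f = f) (hfp : f * p k = f) : f = 0 := by
  have hlt := l.isLt
  have hkt := k.isLt
  have h1 : q l * f * p k = 0 := by
    refine eq_zero_of_span ((AddMonoidHom.mulRight (p k)).comp (AddMonoidHom.mulLeft (q l))) ?_ _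
      (T.CH_one hf hR)
    rintro _ ⟨o, ho, ⟨x, hx, y, hy, hRy, rfl⟩ | ⟨x, hx, y, hy, hRx, rfl⟩⟩
    · change q l * (x * y) * p k = 0
      have h2 : q l * (x * y) * p k = q l * x * (y * p k) := by simp only [mul_assoc]
      rw [h2]
      by_cases hl0 : (l : ℕ) = 0
      · rw [pic_mul ho hp hy hRy k (by
          rcases hm with hm | hm
          · omega
          · have h3 := hm.1
            omega), mul_zero]
      · rw [mul_fund h ho hq hx l hl0, zero_mul]
    · change q l * (x * y) * p k = 0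
      have h2 : q l * (x * y) * p k = q l * x * (y * p k) := by simp only [mul_assoc]
      rw [h2]
      by_cases hk2 : (k : ℕ) = 2 * T.dim i
      · rw [mul_pic ho hq hx hRx l (by
          rcases hm with hm | hm
          · omega
          · have h3 := hm.2
            omega), zero_mul]
      · rw [fund_mul h ho hp hy k hk2, mul_zero]
  rw [hqf, hfp] at h1
  exact h1

private theorem se_V2_all {N : Set T.ι} (h : T.Facts N) : ∀ n : ℕ, ∀ c : ℤ, c ≤ n → VanP T c := by
  intro n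
  induction n with
  | zero =>
    intro c hc i j hi hj p hp q hq z hz k l hkl hm hR
    exact zero_of_R (by exact_mod_cast hc) (se_V2_mem hp hq hz k l) hR
  | succ n ih =>
    intro c hc i j hi hj p hp q hq z hz k l hkl hm hR
    push_cast at hc
    by_cases hcn : c ≤ n
    · exact ih c hcn i j hi hj p hp q hq z hz k l hkl hm hR
    have hcn' : c = n + 1 := by omega
    have hf := se_V2_mem hp hq hz k l
    have hpp : p k * p k = p k := (hp.1.1.2.1.idem k).eq
    have hqq : q l * q l = q l := (hq.1.1.2.1.idem l).eq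
    have hqf : q l * (q l * z * p k) = q l * z * p k := by
      rw [← mul_assoc, ← mul_assoc, hqq]
    have hfp : q l * z * p k * p k = q l * z * p k := by rw [mul_assoc, hpp]
    have hlt := l.isLt
    have hkt := k.isLt
    by_cases hc1 : c = 1
    · subst hc1
      exact se_V2_one h hi hj hp hq hf k l hkl hm hR hqf hfp
    have ih' : ∀ c', c' < c → VanP T c' := fun c' hc' => ih c' (by omega)
    by_cases hk : ((k : ℕ) = 0 ∧ 1 ≤ T.dim i) ∨ ((k : ℕ) = 1 ∧ T.dim i = 2)
    · exact se_V2_caseK h ih' hi hj hp hq hf k l hkl (hm.imp id fun h => h.2) hR hqf hfp hk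
    by_cases hl : ((l.rev : ℕ) = 0 ∧ 1 ≤ T.dim j) ∨ ((l.rev : ℕ) = 1 ∧ T.dim j = 2)
    · have hs : star (q l * z * p k) = 0 := by
        refine se_V2_caseK h ih' hj hi hq hp (T.star_mem hf) l.rev k.rev ?_ ?_ ?_ ?_ ?_ hl
        · rw [Fin.val_rev, Fin.val_rev]
          omega
        · rcases hm with hm | hm
          · left
            rw [Fin.val_rev, Fin.val_rev]
            omega
          · right
            rw [Fin.val_rev]
            have h3 := hm.1
            omega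
        · rw [T.R_star, hR, star_zero]
        · rw [← hp.1.2 k, ← star_mul, hfp]
        · rw [← hq.1.2 l, ← star_mul, hqf]
      rw [← star_star (q l * z * p k), hs, star_zero]
    · exfalso
      rw [Fin.val_rev] at hl
      rcases hm with hm | hm
      · omega
      · have h3 := hm.1
        have h4 := hm.2
        omega

theorem van {N : Set T.ι} (h : T.Facts N) {i j : T.ι} (hi : T.dim i ≤ 2) (hj : T.dim j ≤ 2)
    {p : Fin (2 * T.dim i + 1) → T.C} (hp : T.IsMurre i p)
    {q : Fin (2 * T.dim j + 1) → T.C} (hq : T.IsMurre j q) {c : ℤ} {z : T.C}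
    (hz : z ∈ T.CH i j c) (k : Fin (2 * T.dim i + 1)) (l : Fin (2 * T.dim j + 1))
    (hkl : ((k : ℕ) : ℤ) + 2 * (c - T.dim i) ≤ (l : ℕ))
    (hm : ((k : ℕ) : ℤ) + 2 * (c - T.dim i) < (l : ℕ) ∨
      (¬ (T.dim i = 2 ∧ (k : ℕ) = 2) ∧ ¬ (T.dim j = 2 ∧ (l : ℕ) = 2)))
    (hR : T.R (q l * z * p k) = 0) : q l * z * p k = 0 :=
  se_V2_all h c.toNat c (Int.self_le_toNat c) i j hi hj p hp q hq z hz k l hkl hm hR

theorem van_strict {N : Set T.ι} (h : T.Facts N) {i j : T.ι} (hi : T.dim i ≤ 2)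
    (hj : T.dim j ≤ 2) {p : Fin (2 * T.dim i + 1) → T.C} (hp : T.IsMurre i p)
    {q : Fin (2 * T.dim j + 1) → T.C} (hq : T.IsMurre j q) {c : ℤ} {z : T.C}
    (hz : z ∈ T.CH i j c) (k : Fin (2 * T.dim i + 1)) (l : Fin (2 * T.dim j + 1))
    (hkl : ((k : ℕ) : ℤ) + 2 * (c - T.dim i) < (l : ℕ)) : q l * z * p k = 0 := by
  refine van h hi hj hp hq hz k l hkl.le (Or.inl hkl) ?_
  rw [map_mul, map_mul, hp.1.1.2.2.2 k, hq.1.1.2.2.2 l]
  exact h.deg hz k l (by omega)

end Cycles

end SDCK
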