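import Pool.Agent.LibSD67.C
import Pool.Agent.LibSD67.V2

/-!
[SE D] **No maps from lower to higher weight, modulo the nil ideal.**
-/

set_option autoImplicit false

namespace SDCK

universe u v

namespace Cycles

variable {T : Cycles.{u, v}}

theorem sfc_sfc {N : Set T.ι} (h : T.Facts N) {x : T.ι} {mid mid' : Prop} {P Q : ℤ → Prop}
    (hPQ : ∀ p q, P p → Q q → q < p) {u g v : T.C} (hu : u ∈ T.Sfc x mid P)
    (hg : g ∈ T.CH x x (T.dim x)) (hv : v ∈ T.Sfc x mid' Q) : u * g * v = 0 := by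
  have h1 : T.Sfc x mid' Q ≤ Submodule.comap (LinearMap.mulLeft ℚ (u * g))
      (⊥ : Submodule ℚ T.C) := by
    unfold Sfc
    rw [Submodule.span_le]
    rintro w ⟨j, q, l, ρ', hj, hq, -, hQ, b', hb', a', ha', rfl⟩
    have h2 : T.Sfc x mid P ≤ Submodule.comap (LinearMap.mulRight ℚ (g * (b' * q l * a')))
        (⊥ : Submodule ℚ T.C) := by
      unfold Sfc
      rw [Submodule.span_le]
      rintro w ⟨i, p, k, ρ, hi, hp, -, hP, b, hb, a, ha, rfl⟩
      have hlt := hPQ _ _ hP hQ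
      have hag : a * g ∈ T.CH x i (T.dim x - ρ) := by
        have h3 := T.mul_mem ha hg
        rwa [add_sub_cancel_right] at h3
      have hagb : a * g * b' ∈ T.CH j i (T.dim j + ρ' - ρ) := by
        have h3 := T.mul_mem hag hb'
        rwa [show ((T.dim x : ℤ) - ρ) + (T.dim j + ρ') - T.dim x = T.dim j + ρ' - ρ by ring] at h3
      have h4 : p k * (a * g * b') * q l = 0 := van_strict h hj hi hq hp hagb l k (by linarith)
      have h5 : b * p k * a * (g * (b' * q l * a')) = b * (p k * (a * g * b') * q l) * a' := by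
        simp only [mul_assoc]
      show b * p k * a * (g * (b' * q l * a')) ∈ (⊥ : Submodule ℚ T.C)
      rw [h5, h4, mul_zero, zero_mul]
      exact Submodule.zero_mem _
    have h3 := h2 hu
    show u * g * (b' * q l * a') ∈ (⊥ : Submodule ℚ T.C)
    rw [mul_assoc]
    exact h3
  exact (Submodule.mem_bot ℚ).1 (h1 hv)

theorem wt_mul_mul {N : Set T.ι} (h : T.Facts N) {x : T.ι} {P Q : ℤ → Prop}
    (hPQ : ∀ p q, P p → Q q → q < p) {u g v : T.C} (hu : u ∈ T.Wt N x P)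
    (hg : g ∈ T.CH x x (T.dim x)) (hv : v ∈ T.Wt N x Q) : u * g * v ∈ T.nn N x := by
  have hR : T.R (u * g * v) = 0 := R_mul_mul h (fun m hP hQ => lt_irrefl _ (hPQ m m hP hQ)) hu hg hv
  refine ⟨?_, hR⟩
  obtain ⟨u₁, hu₁, u₂, hu₂, rfl⟩ := Submodule.mem_sup.1 hu
  obtain ⟨v₁, hv₁, v₂, hv₂, rfl⟩ := Submodule.mem_sup.1 hv
  have hu₂' : u₂ ∈ T.CH x x (T.dim x) :=
    wt_le (N := N) ((le_sup_right : T.Sfc x True P ≤ T.Wt N x P) hu₂)
  have hv' : v₁ + v₂ ∈ T.CH x x (T.dim x) := wt_le hv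
  have e1 : (u₁ + u₂) * g * (v₁ + v₂) = u₁ * (g * (v₁ + v₂)) + (u₂ * g) * v₁ + u₂ * g * v₂ := by
    simp only [mul_add, add_mul, mul_assoc]
    abel
  rw [e1, sfc_sfc h hPQ hu₂ hg hv₂, add_zero]
  refine Submodule.add_mem _ ?_ ?_
  · have h1 := fac_mul hu₁.1 (mul_mem_self hg hv')
    rwa [add_sub_cancel_right] at h1
  · have h1 := mul_fac (mul_mem_self hu₂' hg) hv₁.1
    rwa [add_sub_cancel_right] at h1

end Cycles

end SDCK
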