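import Pool.Agent.LibSD51.Main

/-!
# Correspondences factoring through surfaces and varieties with finite-dimensional motive
-/

set_option autoImplicit false

namespace SDCK

universe u v

namespace Cycles

variable (T : Cycles.{u, v})

/-- The correspondences of codimension `c` from `V i` to `V j` that factor, with any twist, through
the members of `S`: sums of `a * b` with `b : V i → V o`, `a : V o → V j`, `o ∈ S`. -/
def Fac (S : Set T.ι) (i j : T.ι) (c : ℤ) : Submodule ℚ T.C :=
  Submodule.span ℚ {z | ∃ o ∈ S, ∃ r s : ℤ, r + s = c + T.dim o ∧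
    ∃ a ∈ T.CH o j r, ∃ b ∈ T.CH i o s, a * b = z}

/-- The varieties in `N` and those of dimension at most `2`. -/
def Sf (N : Set T.ι) : Set T.ι := {o | o ∈ N ∨ T.dim o ≤ 2}

/-- The correspondences of degree `0` on `V x` that factor, with any twists, through members of `N`
and varieties of dimension at most `2`. -/
def Gen (N : Set T.ι) (x : T.ι) : Submodule ℚ T.C := T.Fac (T.Sf N) x x (T.dim x)

/-- A Murre decomposition of `V x`, for `dim V x ≤ 2`: a self-dual Chow-Künneth decomposition such
that `p 0` factors through points and `p 1` through curves. -/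
def IsMurre (x : T.ι) (p : Fin (2 * T.dim x + 1) → T.C) : Prop :=
  T.IsSelfDualCK x p ∧
    (∀ k : Fin (2 * T.dim x + 1), (k : ℕ) = 0 → p k ∈ T.Through x 0) ∧
    ∀ k : Fin (2 * T.dim x + 1), (k : ℕ) = 1 → p k ∈ T.Through x 1

/-- Further facts on cycles and cohomology; `N` is a set of varieties with finite-dimensional motive
and algebraic Künneth projectors. -/
structure Facts (N : Set T.ι) : Prop where
  /-- a correspondence of codimension `c` on `V i × V j` maps cohomology of degree `k` to degree
  `k + 2 (c - dim V i)` -/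
  deg : ∀ {i j : T.ι} {c : ℤ} {a : T.C}, a ∈ T.CH i j c →
    ∀ (k : Fin (2 * T.dim i + 1)) (l : Fin (2 * T.dim j + 1)),
    ((l : ℕ) : ℤ) ≠ (k : ℕ) + 2 * (c - T.dim i) → T.π j l * T.R a * T.π i k = 0
  /-- the Künneth projectors of the members of `N` are algebraic -/
  kunneth : ∀ i ∈ N, ∀ k, ∃ c ∈ T.CH i i (T.dim i), T.R c = T.π i k
  /-- endomorphisms of sums of twists of motives of members of `N` which act as `0` on the
  cohomology are nilpotent -/
  nil : ∀ (n : ℕ) (j : Fin n → T.ι) (s : Fin n → ℤ) (M : Matrix (Fin n) (Fin n) T.C),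
    (∀ a, j a ∈ N) → (∀ a b, M a b ∈ T.CH (j b) (j a) (T.dim (j b) + s a - s b)) →
    (∀ a b, T.R (M a b) = 0) → IsNilpotent M
  /-- the Künneth projector in degree `0` is the class of a correspondence that factors through
  points -/
  zero : ∀ i, T.dim i ≤ 2 → ∀ k : Fin (2 * T.dim i + 1), (k : ℕ) = 0 →
    ∃ c ∈ T.Through i 0, T.R c = T.π i k
  /-- for surfaces the Künneth projector in degree `1` is the class of a correspondence that factors
  through curves -/
  one : ∀ i, T.dim i = 2 → ∀ k : Fin (2 * T.dim i + 1), (k : ℕ) = 1 →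
    ∃ c ∈ T.Through i 1, T.R c = T.π i k

/-- A cycle of dimension `m` on `V i × V j` is a sum of images of smooth projective varieties of
dimension `m` (de Jong): transposed graph of `V o → V i`, then graph of `V o → V j`. -/
def Alter : Prop :=
  ∀ {i j : T.ι} {c : ℤ} {a : T.C}, a ∈ T.CH i j c → a ∈ Submodule.span ℚ
    {z | ∃ o, (T.dim o : ℤ) = T.dim i + T.dim j - c ∧
      ∃ x ∈ T.CH o j (T.dim j), ∃ y ∈ T.CH i o (T.dim i), x * y = z}

/-- Some idempotent correspondence in `Gen N x` acts as the identity on the cohomology of `V x` in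
degrees `k < dim V x`. -/
def LowGen (N : Set T.ι) (x : T.ι) : Prop :=
  ∃ E ∈ T.Gen N x, E * E = E ∧ ∀ k : Fin (T.dim x), T.R E * T.π x (low T k) = T.π x (low T k)

/-- The motive of `V y` is the orthogonal sum of that of `V x` and of a motive that factors through
members of `N`, points, curves and, with twist at least `(dim V y - 2) / 2`, surfaces. For instance
`V y` is the blow-up of a fourfold `V x` along a smooth point, curve or surface: here the twists are
`≥ 1`. -/
def Modif (N : Set T.ι) (x y : T.ι) : Prop :=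
  T.dim x = T.dim y ∧ ∃ a ∈ T.CH x y (T.dim x), star a * a = T.Δ x ∧
    T.Δ y - a * star a ∈ Submodule.span ℚ
      {z | ∃ o, ∃ r s : ℤ, r + s = T.dim y + T.dim o ∧
        (o ∈ N ∨ T.dim o ≤ 1 ∨ (T.dim o = 2 ∧ (T.dim y : ℤ) + 2 ≤ 2 * r)) ∧
        ∃ g ∈ T.CH o y r, ∃ h ∈ T.CH y o s, g * h = z}

/-! ### auxiliary notions -/

/-- the correspondences of degree `0` factoring through `N` and acting as `0` on the cohomology -/
def nn (N : Set T.ι) (x : T.ι) : Submodule ℚ T.C where
  carrier := {z | z ∈ T.Fac N x x (T.dim x) ∧ T.R z = 0}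
  zero_mem' := ⟨Submodule.zero_mem _, map_zero _⟩
  add_mem' := fun {a b} ha hb => ⟨Submodule.add_mem _ ha.1 hb.1, by
    rw [map_add, ha.2, hb.2, add_zero]⟩
  smul_mem' := fun q a ha => ⟨Submodule.smul_mem _ q ha.1, by
    have h : T.R (q • a) = T.R (q • (1 : T.C)) * T.R a := by
      rw [← map_mul, smul_mul_assoc, one_mul]
    rw [h, ha.2, mul_zero]⟩

/-- tame part: factors through `N`, and acts as `0` on the degrees `m` with `¬ P m` -/
def Tame (N : Set T.ι) (x : T.ι) (P : ℤ → Prop) : Submodule ℚ T.C where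
  carrier := {z | z ∈ T.Fac N x x (T.dim x) ∧ ∀ m : Fin (2 * T.dim x + 1),
    ¬ P ((m : ℕ) : ℤ) → T.R z * T.π x m = 0}
  zero_mem' := ⟨Submodule.zero_mem _, fun m _ => by rw [map_zero, zero_mul]⟩
  add_mem' := fun {a b} ha hb => ⟨Submodule.add_mem _ ha.1 hb.1, fun m hm => by
    rw [map_add, add_mul, ha.2 m hm, hb.2 m hm, add_zero]⟩
  smul_mem' := fun q a ha => ⟨Submodule.smul_mem _ q ha.1, fun m hm => by
    have h : T.R (q • a) = T.R (q • (1 : T.C)) * T.R a := by
      rw [← map_mul, smul_mul_assoc, one_mul]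
    rw [h, mul_assoc, ha.2 m hm, mul_zero]⟩

/-- the pieces `p k` of the Murre decompositions of varieties of dimension at most `2` (with
`mid = false`: without the middle piece of surfaces), of weight `k + 2 ρ` -/
def Sfc (x : T.ι) (mid : Prop) (P : ℤ → Prop) : Submodule ℚ T.C :=
  Submodule.span ℚ {z | ∃ (j : T.ι) (p : Fin (2 * T.dim j + 1) → T.C)
    (k : Fin (2 * T.dim j + 1)) (ρ : ℤ), T.dim j ≤ 2 ∧ T.IsMurre j p ∧
    (T.dim j = 2 → (k : ℕ) = 2 → mid) ∧ P ((k : ℕ) + 2 * ρ) ∧
      ∃ b ∈ T.CH j x (T.dim j + ρ), ∃ a ∈ T.CH x j (T.dim x - ρ), b * p k * a = z}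

/-- correspondences of weights `m` with `P m` -/
def Wt (N : Set T.ι) (x : T.ι) (P : ℤ → Prop) : Submodule ℚ T.C :=
  T.Tame N x P ⊔ T.Sfc x True P

/-- correspondences factoring through `N`, points, curves, and the non-middle pieces of surfaces -/
def Cv (N : Set T.ι) (x : T.ι) : Submodule ℚ T.C :=
  T.Fac N x x (T.dim x) ⊔ T.Sfc x False (fun _ => True)

end Cycles

end SDCK
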