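import Pool.Agent.LibSD67.C

/-!
[SE E1] Transposition of weights; composition of `Cv`.

* `wt_star`: `u ∈ Wt P` implies `star u ∈ Wt (fun p => P (2 dim x - p))`. `Submodule.mem_sup`.
  Tame: `fac_star`; `R (star z) * π m = star (R z) * star (π m.rev) = star (π m.rev * R z)`, and
  `π m.rev * R z = R z * π m.rev = 0` (`commute_π`, `fac_le`), where `(m.rev : ℕ) = 2 dim x - m`.
  Sfc (span induction; `star` commutes with rational scalars: `star_rat_smul`, or a linear map):
  `star (b * p k * a) = star a * p k.rev * star b` (`hp.1.2`), same variety and decomposition, `ρ' = dim x - ρ - dim j`.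
* `sfc_mul`: `g * (b * p k * a) * h = (g * b) * p k * (a * h)`, `g * b ∈ CH j y (dim x + dim j + ρ - dim x)`.
* `cv_mul`: `fac_mul`, `mul_fac`, `sfc_mul`.
* `cv_le`: `Cv N x ≤ CH x x (dim x)`.
-/

set_option autoImplicit false

namespace SDCK

universe u v

namespace Cycles

variable {T : Cycles.{u, v}}

theorem wt_star {N : Set T.ι} (h : T.Facts N) {x : T.ι} {P : ℤ → Prop} {z : T.C}
    (hz : z ∈ T.Wt N x P) : star z ∈ T.Wt N x (fun p => P (2 * T.dim x - p)) := by
  obtain ⟨u, hu, v, hv, rfl⟩ := Submodule.mem_sup.1 hz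
  rw [star_add]
  refine Submodule.add_mem_sup ?_ ?_
  · obtain ⟨hu1, hu2⟩ := hu
    refine ⟨fac_star hu1, fun m hm => ?_⟩
    have hm' : ¬ P ((m.rev : ℕ) : ℤ) := by
      intro h1
      apply hm
      have h2 : ((m.rev : ℕ) : ℤ) = 2 * T.dim x - (m : ℕ) := by
        rw [Fin.val_rev]
        have := m.2
        omega
      rw [← h2]
      exact h1
    have h1 := hu2 m.rev hm'
    rw [commute_π h (fac_le _ _ _ _ hu1)] at h1
    have h3 := congrArg star h1
    rw [star_mul, T.π_star, Fin.rev_rev, ← T.R_star, star_zero] at h3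
    exact h3
  · refine Submodule.span_induction (p := fun w _ => star w ∈ T.Sfc x True _) ?_ ?_ ?_ ?_ hv
    · rintro w ⟨j, p, k, ρ, hj, hp, hmid, hP, b, hb, a, ha, rfl⟩
      refine Submodule.subset_span ⟨j, p, k.rev, (T.dim x : ℤ) - ρ - T.dim j, hj, hp,
        fun _ _ => trivial, ?_, star a, ?_, star b, ?_, ?_⟩
      · have h1 : 2 * (T.dim x : ℤ) - (((k.rev : ℕ) : ℤ) + 2 * ((T.dim x : ℤ) - ρ - T.dim j))
            = (k : ℕ) + 2 * ρ := by
          rw [Fin.val_rev]
          have := k.2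
          omega
        change P (2 * (T.dim x : ℤ) - (((k.rev : ℕ) : ℤ) + 2 * ((T.dim x : ℤ) - ρ - T.dim j)))
        rw [h1]
        exact hP
      · have h1 := T.star_mem ha
        have h2 : (T.dim j : ℤ) + ((T.dim x : ℤ) - ρ - T.dim j) = T.dim x - ρ := by ring
        rw [h2]
        exact h1
      · have h1 := T.star_mem hb
        have h2 : (T.dim x : ℤ) - ((T.dim x : ℤ) - ρ - T.dim j) = T.dim j + ρ := by ring
        rw [h2]
        exact h1
      · rw [star_mul, star_mul, hp.1.2, mul_assoc]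
    · rw [star_zero]
      exact Submodule.zero_mem _
    · intro a b _ _ ha hb
      rw [star_add]
      exact Submodule.add_mem _ ha hb
    · intro q a _ ha
      rw [star_rat_smul]
      exact Submodule.smul_mem _ q ha

theorem sfc_mul {x y : T.ι} (hxy : T.dim x = T.dim y) {mid : Prop} {P : ℤ → Prop} {g z k : T.C}
    (hg : g ∈ T.CH x y (T.dim x)) (hz : z ∈ T.Sfc x mid P) (hk : k ∈ T.CH y x (T.dim x)) :
    g * z * k ∈ T.Sfc y mid P := by
  unfold Sfc at hz
  induction hz using Submodule.span_induction with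
  | mem z hz =>
    obtain ⟨j, p, l, ρ, hj, hp, hmid, hP, b, hb, a, ha, rfl⟩ := hz
    refine Submodule.subset_span ⟨j, p, l, ρ, hj, hp, hmid, hP, g * b, ?_, a * k, ?_, ?_⟩
    · have h1 := T.mul_mem hg hb
      have h2 : (T.dim x : ℤ) + (T.dim j + ρ) - T.dim x = T.dim j + ρ := by ring
      rwa [h2] at h1
    · have h1 := T.mul_mem ha hk
      have h2 : (T.dim x : ℤ) - ρ + T.dim x - T.dim x = T.dim y - ρ := by omega
      rwa [h2] at h1
    · simp only [mul_assoc]
  | zero =>
    rw [mul_zero, zero_mul]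
    exact Submodule.zero_mem _
  | add a b _ _ ha hb =>
    rw [mul_add, add_mul]
    exact Submodule.add_mem _ ha hb
  | smul q a _ ha =>
    rw [mul_smul_comm, smul_mul_assoc]
    exact Submodule.smul_mem _ q ha

theorem cv_mul {N : Set T.ι} {x y : T.ι} (hxy : T.dim x = T.dim y) {g z k : T.C}
    (hg : g ∈ T.CH x y (T.dim x)) (hz : z ∈ T.Cv N x) (hk : k ∈ T.CH y x (T.dim x)) :
    g * z * k ∈ T.Cv N y := by
  obtain ⟨u, hu, v, hv, rfl⟩ := Submodule.mem_sup.1 hz
  rw [mul_add, add_mul]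
  refine Submodule.add_mem_sup ?_ (sfc_mul hxy hg hv hk)
  have h1 := fac_mul (mul_fac hg hu) hk
  have h2 : (T.dim x : ℤ) + T.dim x - T.dim x + T.dim x - T.dim x = T.dim y := by omega
  rwa [h2] at h1

theorem cv_le {N : Set T.ι} {x : T.ι} : T.Cv N x ≤ T.CH x x (T.dim x) := by
  refine sup_le (fac_le _ _ _ _) ?_
  refine Submodule.span_le.2 ?_
  rintro _ ⟨j, p, l, ρ, hj, hp, hmid, hP, b, hb, a, ha, rfl⟩
  have h1 := T.mul_mem (T.mul_mem hb (hp.1.1.1 l)) ha
  have h2 : (T.dim j : ℤ) + ρ + T.dim j - T.dim j + (T.dim x - ρ) - T.dim j = T.dim x := by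
    ring
  rw [h2] at h1
  exact h1

end Cycles

end SDCK
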