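import Pool.Agent.LibSD67.M2

/-!
[SE E2] Decomposition by weights (`fac_split` is [SE E2]).

* `gen_split`: `z ∈ Gen N x`. Span induction (sums, rational multiples). Generator `b * a` through `o`,
  `b ∈ CH o x r`, `a ∈ CH x o s`, `r + s = dim x + dim o`. `o ∈ N`: in `Fac N`, `fac_split`, `Tame ≤ Wt`. `dim o ≤ 2`:
  `h.murre` gives `p`, `b * a = b * Δ o * a = ∑ k, b * p k * a`, each term in `Sfc` with `ρ = r - dim o`
  (`s = dim x - ρ`), weight `k + 2 ρ`: `u` = sum over `k + 2 ρ ≤ n`, `v` = sum over the others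
  (`Finset.sum_filter_add_sum_filter_not`), difference `0`.
* `piece_mem`: one term. 
-/

set_option autoImplicit false

namespace SDCK

universe u v

namespace Cycles

variable {T : Cycles.{u, v}}

theorem piece_mem {x o : T.ι} (ho : T.dim o ≤ 2) {p : Fin (2 * T.dim o + 1) → T.C}
    (hp : T.IsMurre o p) {r s : ℤ} (hrs : r + s = T.dim x + T.dim o) {a b : T.C}
    (hb : b ∈ T.CH o x r) (ha : a ∈ T.CH x o s) (k : Fin (2 * T.dim o + 1)) {mid : Prop}
    {P : ℤ → Prop} (hmid : T.dim o = 2 → (k : ℕ) = 2 → mid)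
    (hP : P ((k : ℕ) + 2 * (r - T.dim o))) : b * p k * a ∈ T.Sfc x mid P := by
  refine Submodule.subset_span ⟨o, p, k, r - T.dim o, ho, hp, hmid, hP, b, ?_, a, ?_, rfl⟩
  · have h3 : (T.dim o : ℤ) + (r - T.dim o) = r := by ring
    rwa [h3]
  · have h3 : (T.dim x : ℤ) - (r - T.dim o) = s := by linarith
    rwa [h3]

private theorem se_E2_mul_mem {x o : T.ι} {s : ℤ} {e α : T.C} (he : e ∈ T.CH o o (T.dim o))
    (hα : α ∈ T.CH x o s) : e * α ∈ T.CH x o s := by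
  have h := T.mul_mem he hα
  have h1 : (T.dim o : ℤ) + s - T.dim o = s := by ring
  rwa [h1] at h

private theorem se_E2_tame {N : Set T.ι} (h : T.Facts N) {x o : T.ι} (ho : o ∈ N) {r s : ℤ}
    (hrs : r + s = T.dim x + T.dim o) {β α : T.C} (hβ : β ∈ T.CH o x r) (hα : α ∈ T.CH x o s)
    (c : Fin (2 * T.dim o + 1) → T.C) (hc : ∀ k, c k ∈ T.CH o o (T.dim o))
    (hR : ∀ k, T.R (c k) = T.π o k) (K : Finset (Fin (2 * T.dim o + 1))) (P : ℤ → Prop)
    (hK : ∀ k ∈ K, P (((k : ℕ) : ℤ) + 2 * (r - T.dim o))) :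
    β * ((∑ k ∈ K, c k) * α) ∈ T.Tame N x P := by
  refine ⟨?_, ?_⟩
  · exact mem_fac ho hrs hβ (se_E2_mul_mem (Submodule.sum_mem _ fun k _ => hc k) hα)
  · intro m hm
    rw [map_mul, map_mul, map_sum, Finset.sum_mul, mul_assoc, Finset.sum_mul, Finset.mul_sum]
    apply Finset.sum_eq_zero
    intro k hk
    rw [hR]
    have h1 : T.π o k * T.R α * T.π x m = 0 := by
      apply h.deg hα
      intro h2
      apply hm
      have h3 := hK k hk
      have h4 : ((k : ℕ) : ℤ) + 2 * (r - T.dim o) = ((m : ℕ) : ℤ) := by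
        rw [h2]
        linear_combination 2 * hrs
      rwa [h4] at h3
    rw [h1, mul_zero]

private theorem se_E2_fac_le {N : Set T.ι} (h : T.Facts N) (x : T.ι) (n : ℤ) :
    T.Fac N x x (T.dim x) ≤
      (T.Tame N x (fun p => p ≤ n) ⊔ T.Tame N x (fun p => n < p)) ⊔ T.nn N x := by
  classical
  refine Submodule.span_le.2 ?_
  rintro _ ⟨o, ho, r, s, hrs, β, hβ, α, hα, rfl⟩
  choose c hc hR using h.kunneth o ho
  have hsplit : β * α = (β * ((∑ k ∈ Finset.univ.filter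
      (fun k : Fin (2 * T.dim o + 1) => ((k : ℕ) : ℤ) + 2 * (r - T.dim o) ≤ n), c k) * α) +
      β * ((∑ k ∈ Finset.univ.filter
      (fun k : Fin (2 * T.dim o + 1) => ¬ ((k : ℕ) : ℤ) + 2 * (r - T.dim o) ≤ n), c k) * α)) +
      β * ((T.Δ o - ∑ k, c k) * α) := by
    rw [← mul_add, ← add_mul, Finset.sum_filter_add_sum_filter_not, ← mul_add, ← add_mul,
      add_sub_cancel, T.Δ_mul hα]
  change β * α ∈ _
  rw [hsplit]
  refine Submodule.add_mem_sup (Submodule.add_mem_sup ?_ ?_) ?_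
  · apply se_E2_tame h ho hrs hβ hα c hc hR
    intro k hk
    exact (Finset.mem_filter.1 hk).2
  · apply se_E2_tame h ho hrs hβ hα c hc hR
    intro k hk
    exact lt_of_not_ge (Finset.mem_filter.1 hk).2
  · refine ⟨?_, ?_⟩
    · exact mem_fac ho hrs hβ (se_E2_mul_mem (Submodule.sub_mem _ (T.Δ_mem o)
        (Submodule.sum_mem _ fun k _ => hc k)) hα)
    · have h1 : T.R (T.Δ o - ∑ k, c k) = 0 := by
        rw [map_sub, map_sum, ← T.π_sum]
        simp only [hR, sub_self]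
      rw [map_mul, map_mul, h1, zero_mul, mul_zero]

theorem fac_split {N : Set T.ι} (h : T.Facts N) {x : T.ι} {z : T.C}
    (hz : z ∈ T.Fac N x x (T.dim x)) (n : ℤ) :
    ∃ u ∈ T.Tame N x (fun p => p ≤ n), ∃ v ∈ T.Tame N x (fun p => n < p),
      z - (u + v) ∈ T.nn N x := by
  obtain ⟨y, hy, w, hw, rfl⟩ := Submodule.mem_sup.1 (se_E2_fac_le h x n hz)
  obtain ⟨u, hu, v, hv, rfl⟩ := Submodule.mem_sup.1 hy
  refine ⟨u, hu, v, hv, ?_⟩
  rwa [add_sub_cancel_left]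

private theorem se_E2_gen_le {N : Set T.ι} (h : T.Facts N) (x : T.ι) (n : ℤ) :
    T.Gen N x ≤ (T.Wt N x (fun p => p ≤ n) ⊔ T.Wt N x (fun p => n < p)) ⊔ T.nn N x := by
  have hfac : T.Fac N x x (T.dim x) ≤
      (T.Wt N x (fun p => p ≤ n) ⊔ T.Wt N x (fun p => n < p)) ⊔ T.nn N x := by
    refine (se_E2_fac_le h x n).trans ?_
    exact sup_le_sup_right (sup_le_sup le_sup_left le_sup_left) _
  refine Submodule.span_le.2 ?_
  rintro _ ⟨o, ho, r, s, hrs, β, hβ, α, hα, rfl⟩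
  rcases ho with ho | ho
  · exact hfac (mem_fac ho hrs hβ hα)
  obtain ⟨p, hp⟩ := murre2 h o ho
  have hsplit : β * α = ∑ k, β * p k * α := by
    rw [← Finset.sum_mul, ← Finset.mul_sum, hp.1.1.2.2.1, T.mul_Δ hβ]
  change β * α ∈ _
  rw [hsplit]
  refine Submodule.sum_mem _ fun k _ => ?_
  by_cases hn : ((k : ℕ) : ℤ) + 2 * (r - T.dim o) ≤ n
  · refine Submodule.mem_sup_left (Submodule.mem_sup_left ?_)
    exact Submodule.mem_sup_right
      (piece_mem ho hp hrs hβ hα k (fun _ _ => trivial) (P := fun p => p ≤ n) hn)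
  · refine Submodule.mem_sup_left (Submodule.mem_sup_right ?_)
    exact Submodule.mem_sup_right
      (piece_mem ho hp hrs hβ hα k (fun _ _ => trivial) (P := fun p => n < p) (lt_of_not_ge hn))

theorem gen_split {N : Set T.ι} (h : T.Facts N) {x : T.ι} {z : T.C} (hz : z ∈ T.Gen N x) (n : ℤ) :
    ∃ u ∈ T.Wt N x (fun p => p ≤ n), ∃ v ∈ T.Wt N x (fun p => n < p),
      z - (u + v) ∈ T.nn N x := by
  obtain ⟨y, hy, w, hw, rfl⟩ := Submodule.mem_sup.1 (se_E2_gen_le h x n hz)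
  obtain ⟨u, hu, v, hv, rfl⟩ := Submodule.mem_sup.1 hy
  refine ⟨u, hu, v, hv, ?_⟩
  rwa [add_sub_cancel_left]

end Cycles

end SDCK
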