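import Pool.Agent.LibSD67.F1

/-!
[SE F2] Algebra: a flag of idempotents modulo a nil ideal gives a self-dual decomposition.
(helper79)
-/

set_option autoImplicit false

namespace SDCK

universe u v

/-- the quotient by `K` -/
theorem sd_F2_quot {A : Type u} [Ring A] {K : Set A} (hK : IsIdeal K) :
    ∃ (Q : Type u) (_ : Ring Q) (φ : A →+* Q), ∀ a, φ a = 0 ↔ a ∈ K := by
  have hneg : ∀ a ∈ K, -a ∈ K := fun a ha => by
    have h := hK.mul (-1) a ha 1
    rwa [neg_one_mul, mul_one] at h
  let I : TwoSidedIdeal A := TwoSidedIdeal.mk' K hK.zero (fun {x y} hx hy => hK.add x hx y hy)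
    (fun {x} hx => hneg x hx) (fun {x y} hy => by have h := hK.mul x y hy 1; rwa [mul_one] at h)
    (fun {x y} hx => by have h := hK.mul 1 x hx y; rwa [one_mul] at h)
  refine ⟨I.ringCon.Quotient, inferInstance, I.ringCon.mk', fun a => ?_⟩
  have h1 : I.ringCon.mk' a = 0 ↔ a ∈ TwoSidedIdeal.ker I.ringCon.mk' := by
    rw [TwoSidedIdeal.mem_ker]
  rw [h1, TwoSidedIdeal.ker_ringCon_mk', TwoSidedIdeal.mem_mk']

theorem IsIdeal.neg' {A : Type u} [Ring A] {K : Set A} (hK : IsIdeal K) {a : A} (ha : a ∈ K) :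
    -a ∈ K := by
  have h := hK.mul (-1) a ha 1
  rwa [neg_one_mul, mul_one] at h

theorem IsIdeal.mul_left' {A : Type u} [Ring A] {K : Set A} (hK : IsIdeal K) {a : A}
    (ha : a ∈ K) (x : A) : x * a ∈ K := by
  have h := hK.mul x a ha 1
  rwa [mul_one] at h

theorem IsIdeal.sub' {A : Type u} [Ring A] {K : Set A} (hK : IsIdeal K) {a b : A} (ha : a ∈ K)
    (hb : b ∈ K) : a - b ∈ K := by
  rw [sub_eq_add_neg]
  exact hK.add a ha _ (hK.neg' hb)

namespace Corr

variable {d : ℕ} (X : Corr.{u, v} d)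

theorem sd_F2_chain {K J : Set X.A} (hK : IsIdeal K) (hJ : IsIdeal J)
    (s : Fin d → X.A) (hsJ : ∀ n, s n ∈ J) (hs : ∀ m n, m ≤ n → s n * s m - s m ∈ K)
    (hstar : ∀ m n, star (s n) * s m ∈ K)
    (hR : ∀ (n : Fin d) (m : Fin (2 * d + 1)),
      X.R (s n) * X.π m = if (m : ℕ) ≤ n then X.π m else 0) :
    ∀ n : ℕ, n ≤ d → ∃ (E : X.A) (q : Fin n → X.A), ∑ i, q i = E ∧ (∀ i, q i ∈ J) ∧
      (∀ i, q i * q i - q i ∈ K) ∧ (∀ i j, i ≠ j → q i * q j ∈ K) ∧
      (∀ v : Fin d, n ≤ (v : ℕ) + 1 → s v * E - E ∈ K) ∧ E * E - E ∈ K ∧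
      (∀ i, E * q i - q i ∈ K) ∧ (∀ i, q i * E - q i ∈ K) ∧
      (∀ m, star (s m) * E ∈ K) ∧ (∀ y, (∀ m, star (s m) * y ∈ K) → star E * y ∈ K) ∧
      (∀ m : Fin (2 * d + 1), X.R E * X.π m = if (m : ℕ) < n then X.π m else 0) ∧
      (∀ (i : Fin n) (m : Fin (2 * d + 1)), (m : ℕ) = (i : ℕ) → X.R (q i) = X.π m) := by
  obtain ⟨Q, iQ, φ, hφ⟩ := sd_F2_quot hK
  intro n
  induction n with
  | zero =>
    intro _
    refine ⟨0, fun i => i.elim0, by simp, fun i => i.elim0, fun i => i.elim0, fun i => i.elim0,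
      fun v _ => ?_, ?_, fun i => i.elim0, fun i => i.elim0, fun m => ?_, fun y _ => ?_,
      fun m => ?_, fun i => i.elim0⟩
    · simpa using hK.zero
    · simpa using hK.zero
    · simpa using hK.zero
    · simpa using hK.zero
    · simp
  | succ n ih =>
    intro hn
    obtain ⟨E, q, hE, hqJ, hqq, hqij, hsE, hEE, hEq, hqE, hZ, hL, hRE, hRq⟩ := ih (by omega)
    obtain ⟨w, hw⟩ : ∃ w : Fin d, (w : ℕ) = n := ⟨⟨n, by omega⟩, rfl⟩
    have hm : ∀ a b : X.A, a - b ∈ K ↔ φ a = φ b := fun a b => by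
      rw [← hφ, map_sub, sub_eq_zero]
    -- equations in the quotient
    have eE : φ E * φ E = φ E := by rw [← map_mul]; exact (hm _ _).1 hEE
    have ess : φ (s w) * φ (s w) = φ (s w) := by
      rw [← map_mul]; exact (hm _ _).1 (hs w w le_rfl)
    have esE : φ (s w) * φ E = φ E := by
      rw [← map_mul]; exact (hm _ _).1 (hsE w (by omega))
    have esE' : ∀ x, φ (s w) * (φ E * x) = φ E * x := fun x => by rw [← mul_assoc, esE]
    have eE' : ∀ x, φ E * (φ E * x) = φ E * x := fun x => by rw [← mul_assoc, eE]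
    have eEq : ∀ i, φ E * φ (q i) = φ (q i) := fun i => by
      rw [← map_mul]; exact (hm _ _).1 (hEq i)
    have eqE : ∀ i, φ (q i) * φ E = φ (q i) := fun i => by
      rw [← map_mul]; exact (hm _ _).1 (hqE i)
    have eqE' : ∀ i x, φ (q i) * (φ E * x) = φ (q i) * x := fun i x => by rw [← mul_assoc, eqE]
    have esq : ∀ i, φ (s w) * φ (q i) = φ (q i) := fun i => by
      rw [← eEq i, ← mul_assoc, esE]
    -- the new idempotent
    set c : X.A := s w - E * s w with hc
    have fc : φ c = φ (s w) - φ E * φ (s w) := by rw [hc, map_sub, map_mul]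
    have hcc : φ c * φ c = φ c := by
      rw [fc]
      simp only [mul_sub, sub_mul, mul_assoc, ess, esE', eE']
      abel
    have hEc : φ E * φ c = 0 := by
      rw [fc]
      simp only [mul_sub, eE']
      abel
    have hcE : φ c * φ E = 0 := by
      rw [fc]
      simp only [sub_mul, mul_assoc, esE, eE]
      abel
    have hqc : ∀ i, φ (q i) * φ c = 0 := fun i => by
      rw [← eqE i, mul_assoc, hEc, mul_zero]
    have hcq : ∀ i, φ c * φ (q i) = 0 := fun i => by
      rw [← eEq i, ← mul_assoc, hcE, zero_mul]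
    have hRs : ∀ m : Fin (2 * d + 1), X.R (s w) * X.π m = if (m : ℕ) ≤ n then X.π m else 0 :=
      fun m => by rw [hR, hw]
    have hRcm : ∀ m : Fin (2 * d + 1), X.R c * X.π m = if (m : ℕ) = n then X.π m else 0 := by
      intro m
      rw [hc, map_sub, map_mul, sub_mul, mul_assoc, hRs]
      by_cases h1 : (m : ℕ) ≤ n
      · rw [if_pos h1, hRE]
        by_cases h2 : (m : ℕ) < n
        · rw [if_pos h2, if_neg (by omega), sub_self]
        · rw [if_neg h2, if_pos (by omega), sub_zero]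
      · rw [if_neg h1, if_neg (by omega), mul_zero, sub_zero]
    have hRc : ∀ m : Fin (2 * d + 1), (m : ℕ) = n → X.R c = X.π m := by
      intro m hmn
      have h1 : X.R c = ∑ k, X.R c * X.π k := by
        rw [← Finset.mul_sum, X.π_complete.complete, mul_one]
      rw [h1, Finset.sum_eq_single m]
      · rw [hRcm, if_pos hmn]
      · intro k _ hk
        rw [hRcm, if_neg]
        intro h
        exact hk (Fin.ext (by omega))
      · intro h; exact absurd (Finset.mem_univ m) h
    have fEc : φ (E + c) = φ E + φ c := map_add φ E c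
    have hJw := hsJ w
    have hcJ : c ∈ J := hJ.sub' hJw (hJ.mul_left' hJw E)
    refine ⟨E + c, Fin.snoc (α := fun _ => X.A) q c, ?_, ?_, ?_, ?_, ?_, ?_, ?_, ?_, ?_, ?_, ?_,
      ?_⟩
    · rw [Fin.sum_univ_castSucc]
      simp only [Fin.snoc_castSucc, Fin.snoc_last]
      rw [hE]
    · intro i
      refine Fin.lastCases ?_ (fun i => ?_) i
      · rw [Fin.snoc_last]; exact hcJ
      · rw [Fin.snoc_castSucc]; exact hqJ i
    · intro i
      refine Fin.lastCases ?_ (fun i => ?_) i
      · rw [Fin.snoc_last]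
        exact (hm _ _).2 (by rw [map_mul]; exact hcc)
      · rw [Fin.snoc_castSucc]; exact hqq i
    · intro i j
      refine Fin.lastCases ?_ (fun i => ?_) i <;> refine Fin.lastCases ?_ (fun j => ?_) j
      · intro h; exact absurd rfl h
      · intro _
        rw [Fin.snoc_last, Fin.snoc_castSucc, ← hφ, map_mul]
        exact hcq j
      · intro _
        rw [Fin.snoc_last, Fin.snoc_castSucc, ← hφ, map_mul]
        exact hqc i
      · intro h
        rw [Fin.snoc_castSucc, Fin.snoc_castSucc]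
        exact hqij i j fun h' => h (congrArg Fin.castSucc h')
    · intro v hv
      rw [hm, map_mul, fEc, mul_add]
      have h1 : φ (s v) * φ E = φ E := by
        rw [← map_mul]; exact (hm _ _).1 (hsE v (by omega))
      have h2 : φ (s v) * φ (s w) = φ (s w) := by
        rw [← map_mul]
        exact (hm _ _).1 (hs w v (by rw [Fin.le_def]; omega))
      rw [h1, fc, mul_sub, h2, ← mul_assoc, h1]
    · rw [hm, map_mul, fEc, mul_add, add_mul, add_mul, eE, hcc, hEc, hcE]
      abel
    · intro i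
      rw [hm, map_mul, fEc, add_mul]
      refine Fin.lastCases ?_ (fun i => ?_) i
      · rw [Fin.snoc_last, hEc, hcc, zero_add]
      · rw [Fin.snoc_castSucc, eEq, hcq, add_zero]
    · intro i
      rw [hm, map_mul, fEc, mul_add]
      refine Fin.lastCases ?_ (fun i => ?_) i
      · rw [Fin.snoc_last, hcE, hcc, zero_add]
      · rw [Fin.snoc_castSucc, eqE, hqc, add_zero]
    · intro m
      have h1 : star (s m) * (E + c)
          = star (s m) * E + (star (s m) * s w - star (s m) * E * s w) := by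
        rw [hc]; noncomm_ring
      rw [h1]
      exact hK.add _ (hZ m) _ (hK.sub' (hstar w m) (hK.mul_right (hZ m) (s w)))
    · intro y hy
      have h1 : star (E + c) * y
          = star E * y + (star (s w) * y - star (s w) * (star E * y)) := by
        rw [hc, star_add, star_sub, star_mul]; noncomm_ring
      rw [h1]
      exact hK.add _ (hL y hy) _ (hK.sub' (hy w) (hK.mul_left' (hL y hy) (star (s w))))
    · intro m
      rw [map_add, add_mul, hRE, hRcm]
      by_cases h1 : (m : ℕ) < n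
      · rw [if_pos h1, if_neg (by omega), if_pos (by omega), add_zero]
      · rw [if_neg h1, zero_add]
        by_cases h2 : (m : ℕ) = n
        · rw [if_pos h2, if_pos (by omega)]
        · rw [if_neg h2, if_neg (by omega)]
    · intro i m
      refine Fin.lastCases ?_ (fun i => ?_) i
      · intro h
        rw [Fin.snoc_last]
        exact hRc m (by simpa using h)
      · intro h
        rw [Fin.snoc_castSucc]
        exact hRq i m (by simpa using h)

theorem selfDual_of_flag {K J : Set X.A} (hK : IsIdeal K) (hstarK : ∀ a ∈ K, star a ∈ K)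
    (hJ : IsIdeal J) (hle : K ⊆ J) (hnil : ∀ a ∈ K, IsNilpotent a) (hR0 : ∀ a ∈ K, X.R a = 0)
    (s : Fin d → X.A) (hsJ : ∀ n, s n ∈ J) (hs : ∀ m n, m ≤ n → s n * s m - s m ∈ K)
    (hstar : ∀ m n, star (s n) * s m ∈ K)
    (hR : ∀ (n : Fin d) (m : Fin (2 * d + 1)),
      X.R (s n) * X.π m = if (m : ℕ) ≤ n then X.π m else 0) :
    ∃ P, X.IsSelfDualCK P ∧ ∀ i, P (low i) ∈ J := by
  obtain ⟨E, q, hE, hqJ, hqq, hqij, -, -, -, -, hZ, hL, -, hRq⟩ :=
    X.sd_F2_chain hK hJ s hsJ hs hstar hR d le_rfl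
  obtain ⟨p, hp, hpq⟩ := lift_ortho hK hnil q hqq hqij
  have hpE : ∑ i, p i - E ∈ K := by
    rw [← hE, ← Finset.sum_sub_distrib]
    exact hK.sum _ _ fun i _ => hpq i
  have hpJ : ∀ i, p i ∈ J := fun i => by
    have h := hJ.add _ (hle (hpq i)) _ (hqJ i)
    rwa [sub_add_cancel] at h
  have hpR : ∀ i, X.R (p i) = X.π (low i) := fun i => by
    have h := hR0 _ (hpq i)
    rw [map_sub, sub_eq_zero] at h
    rw [h]
    exact hRq i (low i) rfl
  have hEE : star E * E ∈ K := hL E hZ
  have h1 : star (∑ i, p i) * ∑ i, p i ∈ K := by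
    have h2 : star (∑ i, p i) * ∑ i, p i = star (∑ i, p i - E) * (∑ i, p i)
        + (star E * (∑ i, p i - E) + star E * E) := by
      rw [star_sub]; noncomm_ring
    rw [h2]
    exact hK.add _ (hK.mul_right (hstarK _ hpE) _) _
      (hK.add _ (hK.mul_left' hpE _) _ hEE)
  obtain ⟨P, hP, hxy⟩ := X.selfDual_of_nilpotent_mem ⟨hp, hpR⟩ (hnil _ h1)
  refine ⟨P, hP, fun i => ?_⟩
  obtain ⟨x, y, h⟩ := hxy i
  rw [h]
  exact hJ.mul x _ (hpJ i) y

end Corr

end SDCK
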