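import Pool.Agent.LibSD67.D
import Pool.Agent.LibSD67.E2

/-!
[SE G1] Cutting an idempotent `E ∈ Gen` by weights.

* `exists_cut`: `gen_split` gives `u`, `v`; `E - (E * u * E + E * v * E) = E * (E - (u + v)) * E ∈ nn`
  (`mul_nn_mul` with `x = y`, `gen_le`).
* `cut_mul`: `m ≤ n`. `E * u' * E = E * (E * u' * E)`, and
  `E * (E u' E) - (E u E) * (E u' E) = (E - (E u E + E v E)) * (E u' E) + E * (v * (E * E) * u') * E`; the first
  is in `nn` (ideal), the second by `wt_mul_mul` (`v ∈ Wt (n < ·)`, `u' ∈ Wt (· ≤ m)`).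
* `cut_star`: `star (E u E) * (E u' E) = star E * (star u * (star E * E) * u') * E`,
  `star u ∈ Wt (fun p => 2 dim x - p ≤ n)` (`wt_star`), its weights are `≥ 2 dim x - n > m`: `wt_mul_mul`.
* `cut_R`: `R E` commutes with `π m` (`commute_π`). `m > n`: `R (E u E) π m = R E * (R u * π m) * R E = 0`
  (`wt_R`). `m ≤ n`: `R (E v E) π m = 0`, `R (E - ..) = 0`, so `R (E u E) π m = R E * π m = π m`.
-/

set_option autoImplicit false

namespace SDCK

universe u v

namespace Cycles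

variable {T : Cycles.{u, v}}

/-- the part of weights `≤ n` of an idempotent in `Gen` -/
theorem exists_cut {N : Set T.ι} (h : T.Facts N) {x : T.ι} {E : T.C} (hE : E ∈ T.Gen N x)
    (hEE : E * E = E) (n : ℤ) :
    ∃ u ∈ T.Wt N x (fun p => p ≤ n), ∃ v ∈ T.Wt N x (fun p => n < p),
      E - (E * u * E + E * v * E) ∈ T.nn N x := by
  obtain ⟨u, hu, v, hv, huv⟩ := gen_split h hE n
  refine ⟨u, hu, v, hv, ?_⟩
  have h1 : E - (E * u * E + E * v * E) = E * (E - (u + v)) * E := by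
    rw [mul_sub, sub_mul, mul_add, add_mul, hEE, hEE]
  rw [h1]
  exact mul_nn_mul rfl (gen_le hE) huv (gen_le hE)

theorem cut_mul {N : Set T.ι} (h : T.Facts N) {x : T.ι} {E u v u' : T.C} {m n : ℤ} (hmn : m ≤ n)
    (hE : E ∈ T.Gen N x) (hEE : E * E = E) (hu : u ∈ T.Wt N x (fun p => p ≤ n))
    (hv : v ∈ T.Wt N x (fun p => n < p)) (huv : E - (E * u * E + E * v * E) ∈ T.nn N x)
    (hu' : u' ∈ T.Wt N x (fun p => p ≤ m)) :
    E * u * E * (E * u' * E) - E * u' * E ∈ T.nn N x := by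
  have hE' := gen_le hE
  have h1 : E * u' * E ∈ T.CH x x (T.dim x) := mul_mem_self (mul_mem_self hE' (wt_le hu')) hE'
  have h2 : (E - (E * u * E + E * v * E)) * (E * u' * E) ∈ T.nn N x := by
    have h3 := mul_nn_mul rfl (T.Δ_mem x) huv h1
    rwa [T.Δ_mul (gen_le (nn_le_gen huv))] at h3
  have h4 : E * (v * E * u') * E ∈ T.nn N x := by
    refine mul_nn_mul rfl hE' (wt_mul_mul h (fun p q hp hq => ?_) hv hE' hu') hE'
    exact lt_of_le_of_lt (le_trans hq hmn) hp
  have h5 : E * u * E * (E * u' * E) - E * u' * E =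
      -((E - (E * u * E + E * v * E)) * (E * u' * E) + E * (v * E * u') * E) := by
    have h6 : E * (E * u' * E) = E * u' * E := by
      rw [← mul_assoc, ← mul_assoc, hEE]
    have h7 : E * v * E * (E * u' * E) = E * (v * E * u') * E := by
      rw [mul_assoc (E * v) E, h6]
      simp only [mul_assoc]
    rw [sub_mul, add_mul, h6, h7]
    abel
  rw [h5]
  exact Submodule.neg_mem _ (Submodule.add_mem _ h2 h4)

theorem cut_star {N : Set T.ι} (h : T.Facts N) {x : T.ι} {E u u' : T.C} {m n : ℤ}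
    (hmn : m + n < 2 * T.dim x) (hE : E ∈ T.Gen N x) (hu : u ∈ T.Wt N x (fun p => p ≤ n))
    (hu' : u' ∈ T.Wt N x (fun p => p ≤ m)) :
    star (E * u * E) * (E * u' * E) ∈ T.nn N x := by
  have hE' := gen_le hE
  have hsE : star E ∈ T.CH x x (T.dim x) := T.star_mem hE'
  have h1 : star (E * u * E) * (E * u' * E) = star E * (star u * (star E * E) * u') * E := by
    rw [star_mul, star_mul]
    simp only [mul_assoc]
  rw [h1]
  refine mul_nn_mul rfl hsE (wt_mul_mul h (fun p q hp hq => ?_) (wt_star h hu)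
    (mul_mem_self hsE hE') hu') hE'
  have hp' : 2 * (T.dim x : ℤ) - p ≤ n := hp
  have hq' : q ≤ m := hq
  omega

private theorem sd_g1_zero {N : Set T.ι} (h : T.Facts N) {x : T.ι} {E u : T.C} {P : ℤ → Prop}
    (hE : E ∈ T.Gen N x) (hu : u ∈ T.Wt N x P) (m : Fin (2 * T.dim x + 1))
    (hm : ¬ P ((m : ℕ) : ℤ)) : T.R (E * u * E) * T.π x m = 0 := by
  rw [map_mul, map_mul, mul_assoc, commute_π h (gen_le hE), ← mul_assoc, mul_assoc (T.R E),
    wt_R h hu m hm, mul_zero, zero_mul]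

theorem cut_R {N : Set T.ι} (h : T.Facts N) {x : T.ι} {E u v : T.C} {n : ℤ}
    (hE : E ∈ T.Gen N x) (hn : n < T.dim x) (hER : ∀ k : Fin (T.dim x), T.R E * T.π x (low T k) = T.π x (low T k))
    (hu : u ∈ T.Wt N x (fun p => p ≤ n))
    (hv : v ∈ T.Wt N x (fun p => n < p)) (huv : E - (E * u * E + E * v * E) ∈ T.nn N x)
    (m : Fin (2 * T.dim x + 1)) :
    T.R (E * u * E) * T.π x m = if ((m : ℕ) : ℤ) ≤ n then T.π x m else 0 := by
  split_ifs with hm
  · have hm' : (m : ℕ) < T.dim x := by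
      have h1 : ((m : ℕ) : ℤ) < T.dim x := lt_of_le_of_lt hm hn
      exact_mod_cast h1
    have h2 : T.R E * T.π x m = T.π x m := hER ⟨m, hm'⟩
    have h3 : T.R (E * v * E) * T.π x m = 0 := sd_g1_zero h hE hv m (not_lt.2 hm)
    have h4 : T.R (E - (E * u * E + E * v * E)) = 0 := huv.2
    have h5 := congrArg (fun z => z * T.π x m) h4
    simp only [map_sub, map_add, sub_mul, add_mul, zero_mul, h2, h3, add_zero] at h5
    exact (sub_eq_zero.1 h5).symm
  · exact sd_g1_zero h hE hu m hm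

end Cycles

end SDCK
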