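import Pool.Agent.LibSD67.B
import Pool.Agent.LibSD67.F2
import Pool.Agent.LibSD67.G1

/-!
[SE G2] The criterion.

* `selfDual_of_lowGen`: `E` as in `LowGen`; `choose` for each `n : Fin (dim x)` a cut `u n`, `v n` of `E`
  (`exists_cut` for `(n : ℤ)`), `s n = E * u n * E`. `selfDual_of_flag` for `toCorr x` (see LibSD51/Main, section
  transfer: `J`, `isIdeal_J`, `of_toCorr`, `mk'`, `val`, `val_inj`, `R_val`) with
  `K = {a | val a ∈ nn N x}`, `J = {a | val a ∈ Gen N x}`; the hypotheses are `mul_nn_mul`, `mul_gen_mul` (`x = y`),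
  `nn_le_gen`, `star` (`fac_star`, `T.R_star`), `nn_nilpotent` (with `val (a ^ (k+1)) = val a ^ (k+1)`),
  `cut_mul`, `cut_star` (`m, n < dim x`), `cut_R`. The conclusion is carried over as in `of_toCorr`.
* `lowGen_iff`: conversely `E = ∑ k, P (low k)`: in `Gen`, idempotent (`P` orthogonal idempotents, `low`
  injective: `SDCK.Corr.low_injective` or `Fin.ext`), `R E * π (low k) = ∑ π (low l) * π (low k) = π (low k)`.
-/

set_option autoImplicit false

namespace SDCK

universe u v

namespace Cycles

variable {T : Cycles.{u, v}}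

private theorem sd_G2_val_pow {x : T.ι} (a : T.A x) (n : ℕ) :
    val (a ^ (n + 1)) = val a ^ (n + 1) := by
  induction n with
  | zero => rw [zero_add, pow_one, pow_one]
  | succ n ih => rw [pow_succ, val_mul, ih, ← pow_succ]

private theorem sd_G2_val_sub {x : T.ι} (a b : T.A x) : val (a - b) = val a - val b := by
  rw [sub_eq_add_neg, val_add, val_neg, sub_eq_add_neg]

theorem selfDual_of_lowGen {N : Set T.ι} (h : T.Facts N) {x : T.ι} (hx : T.LowGen N x) :
    ∃ P, T.IsSelfDualCK x P ∧ ∀ k : Fin (T.dim x), P (low T k) ∈ T.Gen N x := by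
  obtain ⟨E, hE, hEE, hER⟩ := hx
  choose u hu v hv huv using fun n : Fin (T.dim x) => exists_cut h hE hEE ((n : ℕ) : ℤ)
  have hEm : E ∈ T.CH x x (T.dim x) := gen_le hE
  have hsG : ∀ n, E * u n * E ∈ T.Gen N x := fun n =>
    mul_gen_mul rfl hEm (wt_le_gen (hu n)) hEm
  have hsm : ∀ n, E * u n * E ∈ T.CH x x (T.dim x) := fun n => gen_le (hsG n)
  let K : Set (toCorr x).A := {a : T.A x | val a ∈ T.nn N x}
  let J : Set (toCorr x).A := {a : T.A x | val a ∈ T.Gen N x}
  have hK : IsIdeal K :=
    { zero := (T.nn N x).zero_mem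
      add := fun a ha b hb => (T.nn N x).add_mem ha hb
      mul := fun g a ha y => by
        change val (T := T) (x := x) (g * a * y) ∈ T.nn N x
        exact mul_nn_mul rfl (val_mem (T := T) (x := x) g) ha (val_mem (T := T) (x := x) y) }
  have hJ : IsIdeal J :=
    { zero := (T.Gen N x).zero_mem
      add := fun a ha b hb => (T.Gen N x).add_mem ha hb
      mul := fun g a ha y => by
        change val (T := T) (x := x) (g * a * y) ∈ T.Gen N x
        exact mul_gen_mul rfl (val_mem (T := T) (x := x) g) ha (val_mem (T := T) (x := x) y) }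
  have hstarK : ∀ a ∈ K, star a ∈ K := by
    intro a ha
    change star (val (T := T) (x := x) a) ∈ T.nn N x
    exact ⟨fac_star ha.1, by rw [T.R_star, ha.2, star_zero]⟩
  have hle : K ⊆ J := fun a ha => nn_le_gen ha
  have hnil : ∀ a ∈ K, IsNilpotent a := by
    intro a ha
    obtain ⟨n, hn⟩ := nn_nilpotent h (z := val (T := T) (x := x) a) ha
    refine ⟨n + 1, val_inj (T := T) (x := x) ?_⟩
    have h1 : val (T := T) (x := x) a ^ (n + 1) = val (0 : T.A x) := by
      rw [pow_succ, hn, zero_mul, val_zero]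
    exact (sd_G2_val_pow (T := T) (x := x) a n).trans h1
  have hR0 : ∀ a ∈ K, (toCorr x).R a = 0 := by
    intro a ha
    exact vh_inj (T := T) (x := x) ha.2
  obtain ⟨P, ⟨⟨hP, hR⟩, hs⟩, hJP⟩ := (toCorr x).selfDual_of_flag hK hstarK hJ hle hnil hR0
    (fun n => mk' (E * u n * E) (hsm n)) (fun n => hsG n) (fun m n hmn => by
      change val (T := T) (x := x) (mk' (E * u n * E) (hsm n) * mk' (E * u m * E) (hsm m) -
        mk' (E * u m * E) (hsm m)) ∈ T.nn N x
      rw [sd_G2_val_sub, val_mul, val_mk, val_mk]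
      have h1 : ((m : ℕ) : ℤ) ≤ ((n : ℕ) : ℤ) := by exact_mod_cast hmn
      exact cut_mul h h1 hE hEE (hu n) (hv n) (huv n) (hu m)) (fun m n => by
      change val (T := T) (x := x) (star (mk' (E * u n * E) (hsm n)) *
        mk' (E * u m * E) (hsm m)) ∈ T.nn N x
      rw [val_mul, val_star, val_mk, val_mk]
      exact cut_star h (by have := m.2; have := n.2; omega) hE (hu n) (hu m)) (fun n m => by
      have h1 := cut_R h hE (n := ((n : ℕ) : ℤ)) (by exact_mod_cast n.2) hER (hu n) (hv n)
        (huv n) m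
      by_cases hmn : (m : ℕ) ≤ n
      · rw [if_pos hmn]
        rw [if_pos (by exact_mod_cast hmn)] at h1
        exact vh_inj (T := T) (x := x) h1
      · rw [if_neg hmn]
        rw [if_neg (by exact_mod_cast hmn)] at h1
        exact vh_inj (T := T) (x := x) h1)
  refine ⟨fun k => val (T := T) (x := x) (P k), ⟨⟨fun k => val_mem (T := T) (x := x) (P k),
    ⟨fun k => ?_, fun k l hkl => ?_⟩, ?_, fun k => ?_⟩, fun k => ?_⟩, fun k => ?_⟩
  · have h1 : P k * P k = P k := (hP.idem k).eq
    exact congrArg (val (T := T) (x := x)) h1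
  · have h1 : P k * P l = 0 := hP.ortho hkl
    exact congrArg (val (T := T) (x := x)) h1
  · have h1 : ∑ k, P k = 1 := hP.complete
    have h2 := congrArg (val (T := T) (x := x)) h1
    exact (val_sum _).symm.trans h2
  · exact congrArg (vh (T := T) (x := x)) (hR k)
  · exact congrArg (val (T := T) (x := x)) (hs k)
  · exact hJP k

private theorem sd_G2_low_inj {x : T.ι} {k l : Fin (T.dim x)} (h : low T k = low T l) :
    k = l := by
  have h1 := congrArg Fin.val h
  exact Fin.ext h1

theorem lowGen_iff {N : Set T.ι} (h : T.Facts N) (x : T.ι) :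
    T.LowGen N x ↔
      ∃ P, T.IsSelfDualCK x P ∧ ∀ k : Fin (T.dim x), P (low T k) ∈ T.Gen N x := by
  classical
  refine ⟨selfDual_of_lowGen h, ?_⟩
  rintro ⟨P, ⟨⟨-, hP, -, hR⟩, -⟩, hG⟩
  have hPP : ∀ k l : Fin (T.dim x), P (low T k) * P (low T l) =
      if k = l then P (low T k) else 0 := by
    intro k l
    by_cases hkl : k = l
    · subst hkl
      rw [if_pos rfl]
      exact (hP.idem _).eq
    · rw [if_neg hkl]
      exact hP.ortho fun h' => hkl (sd_G2_low_inj h')
  have hππ : ∀ k l : Fin (T.dim x), T.π x (low T k) * T.π x (low T l) =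
      if k = l then T.π x (low T k) else 0 := by
    intro k l
    by_cases hkl : k = l
    · subst hkl
      rw [if_pos rfl]
      exact ((T.π_ortho x).idem _).eq
    · rw [if_neg hkl]
      exact (T.π_ortho x).ortho fun h' => hkl (sd_G2_low_inj h')
  refine ⟨∑ k : Fin (T.dim x), P (low T k), Submodule.sum_mem _ fun k _ => hG k, ?_,
    fun k => ?_⟩
  · rw [Finset.sum_mul]
    refine Finset.sum_congr rfl fun k _ => ?_
    rw [Finset.mul_sum, Finset.sum_eq_single k]
    · rw [hPP, if_pos rfl]
    · intro l _ hl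
      rw [hPP, if_neg hl.symm]
    · intro hk
      exact absurd (Finset.mem_univ k) hk
  · rw [map_sum, Finset.sum_mul, Finset.sum_eq_single k]
    · rw [hR, hππ, if_pos rfl]
    · intro l _ hl
      rw [hR, hππ, if_neg hl]
    · intro hk
      exact absurd (Finset.mem_univ k) hk

end Cycles

end SDCK
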