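import Pool.Agent.LibSD67.A

/-!
[SE H] The decomposition of the diagonal: if `Δ x = g + z` with `g ∈ Gen`, `z ∈ Through x w`,
`2 w ≤ dim x + 2`, then `Δ x ∈ Gen`.

PROOF. `Δ = Δ * star Δ = g * star Δ + z * star g + z * star z` (`star_Δ`, `T.Δ_mul`); the first two are in
`Gen` (`mul_gen_mul` with `x = y` or `fac_mul`, `mul_fac`, `star_mem_gen`; `through_le`). `z * star z ∈ Gen`
(`through_mul_star`): for `z = a * b`, `z' = a' * b'`, `a ∈ CH j x (dim j)`, `b ∈ CH x j (dim x)`, same for
`j'`: `z * star z' = a * (b * star b') * star a'`, `b * star b' ∈ CH j' j (dim x)`; by `Alter` it is a sum of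
`y * y'`, `y ∈ CH o j (dim j)`, `y' ∈ CH j' o (dim j')`, `dim o = dim j + dim j' - dim x ≤ 2 w - dim x ≤ 2`;
`(a * y) * (y' * star a')`: `a * y ∈ CH o x (dim j)`, `y' * star a' ∈ CH x o (dim j')`,
`dim j + dim j' = dim x + dim o` (`mem_fac`).
-/

set_option autoImplicit false

namespace SDCK

universe u v

namespace Cycles

variable {T : Cycles.{u, v}}

theorem through_mul_star {N : Set T.ι} (hal : T.Alter) {x : T.ι} {w : ℕ}
    (hw : 2 * w ≤ T.dim x + 2) {z z' : T.C} (hz : z ∈ T.Through x w) (hz' : z' ∈ T.Through x w) :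
    z * star z' ∈ T.Gen N x := by
  have key : ∀ (j j' : T.ι) (a a' : T.C), T.dim j ≤ w → T.dim j' ≤ w →
      a ∈ T.CH j x (T.dim j) → a' ∈ T.CH j' x (T.dim j') →
      ∀ y ∈ T.CH j' j (T.dim x), a * y * star a' ∈ T.Gen N x := by
    intro j j' a a' hj hj' ha ha' y hy
    refine Submodule.span_induction (p := fun y _ => a * y * star a' ∈ T.Gen N x)
      ?_ ?_ ?_ ?_ (hal hy)
    · rintro _ ⟨o, ho, u, hu, v, hv, rfl⟩
      have h1 : a * u ∈ T.CH o x (T.dim j + T.dim j - T.dim j) := T.mul_mem ha hu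
      have h2 : v * star a' ∈ T.CH x o (T.dim j' + T.dim j' - T.dim j') :=
        T.mul_mem hv (T.star_mem ha')
      have h3 : a * (u * v) * star a' = (a * u) * (v * star a') := by
        simp only [mul_assoc]
      rw [h3]
      refine mem_fac (o := o) ?_ ?_ h1 h2
      · right
        omega
      · omega
    · simp only [mul_zero, zero_mul]
      exact Submodule.zero_mem _
    · intro y₁ y₂ _ _ h1 h2
      rw [mul_add, add_mul]
      exact Submodule.add_mem _ h1 h2
    · intro q y _ h1
      rw [mul_smul_comm, smul_mul_assoc]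
      exact Submodule.smul_mem _ q h1
  refine Submodule.span_induction (p := fun z _ => z * star z' ∈ T.Gen N x) ?_ ?_ ?_ ?_ hz
  · rintro _ ⟨j, hj, a, ha, b, hb, rfl⟩
    refine Submodule.span_induction (p := fun z' _ => a * b * star z' ∈ T.Gen N x)
      ?_ ?_ ?_ ?_ hz'
    · rintro _ ⟨j', hj', a', ha', b', hb', rfl⟩
      have hy : b * star b' ∈ T.CH j' j (T.dim x + T.dim x - T.dim x) :=
        T.mul_mem hb (T.star_mem hb')
      rw [add_sub_cancel_right] at hy
      have h1 := key j j' a a' hj hj' ha ha' _ hy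
      have h2 : a * b * star (a' * b') = a * (b * star b') * star a' := by
        simp only [star_mul, mul_assoc]
      rw [h2]
      exact h1
    · rw [star_zero, mul_zero]
      exact Submodule.zero_mem _
    · intro y₁ y₂ _ _ h1 h2
      rw [star_add, mul_add]
      exact Submodule.add_mem _ h1 h2
    · intro q y _ h1
      rw [star_rat_smul, mul_smul_comm]
      exact Submodule.smul_mem _ q h1
  · rw [zero_mul]
    exact Submodule.zero_mem _
  · intro y₁ y₂ _ _ h1 h2
    rw [add_mul]
    exact Submodule.add_mem _ h1 h2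
  · intro q y _ h1
    rw [smul_mul_assoc]
    exact Submodule.smul_mem _ q h1

theorem diag_mem_gen {N : Set T.ι} (hal : T.Alter) {x : T.ι} {w : ℕ}
    (hw : 2 * w ≤ T.dim x + 2) (hx : T.Δ x ∈ T.Gen N x ⊔ T.Through x w) : T.Δ x ∈ T.Gen N x := by
  obtain ⟨g, hg, z, hz, hgz⟩ := Submodule.mem_sup.mp hx
  have h1 : T.Δ x = g * star (T.Δ x) + z * star g + z * star z := by
    have h2 : T.Δ x = T.Δ x * T.Δ x := (T.Δ_mul (T.Δ_mem x)).symm
    calc T.Δ x = T.Δ x * T.Δ x := h2
      _ = T.Δ x * star (T.Δ x) := by rw [star_Δ]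
      _ = (g + z) * star (T.Δ x) := by rw [hgz]
      _ = g * star (T.Δ x) + z * star (T.Δ x) := add_mul _ _ _
      _ = g * star (T.Δ x) + z * star (g + z) := by rw [hgz]
      _ = g * star (T.Δ x) + z * star g + z * star z := by
        rw [star_add, mul_add, add_assoc]
  have h3 : g * star (T.Δ x) ∈ T.Gen N x := by
    rw [star_Δ, T.mul_Δ (gen_le hg)]
    exact hg
  have h4 : z * star g ∈ T.Gen N x := by
    have h5 := mul_fac (through_le hz) (star_mem_gen hg)
    rw [add_sub_cancel_right] at h5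
    exact h5
  rw [h1]
  exact Submodule.add_mem _ (Submodule.add_mem _ h3 h4) (through_mul_star hal hw hz hz)

end Cycles

end SDCK
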