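import Pool.Agent.LibSD67.B
import Pool.Agent.LibSD67.E2

/-!
[SE I1] Lifting one idempotent; splitting the exceptional part.

* `lift_idem`: `exists_idem_of_algebraic` (LibSD51/Ideal) in the ring `T.A x` (LibSD51/Data: `mk'`, `val`, `val_mul`,
  `val_inj`) with `RB x`: `F` is algebraic since `(F ^ 2 - F) ^ n = 0` (polynomial `(X ^ 2 - X) ^ n ≠ 0`;
  `val (a ^ (k+1)) = val a ^ (k+1)`), `R F * R F = R F`; the result is `F * y`, `y ∈ CH x x (dim x)`.
* `exc_split`: span induction; generator `g * h` through `o`. `o ∈ N`: `g * h ∈ Fac N ≤ Cv` (`mem_fac`), `v = 0`.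
  `dim o ≤ 2`: `h.murre` gives `p`, `g * h = g * Δ o * h = ∑ k, g * p k * h`; each term is in `Sfc y False ⊤ ≤ Cv`
  (`piece_mem`) unless `dim o = 2`, `k = 2`; then `dim y + 2 ≤ 2 r` and the term is in `Sfc y True (dim y - 1 < ·) ≤ Wt`, weight
  `2 + 2 (r - 2) ≥ dim y`.
-/

set_option autoImplicit false

namespace SDCK

universe u v

namespace Cycles

variable {T : Cycles.{u, v}}

theorem lift_idem {x : T.ι} {F : T.C} (hF : F ∈ T.CH x x (T.dim x))
    (hFF : IsNilpotent (F * F - F)) (hR : T.R F * T.R F = T.R F) :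
    ∃ y ∈ T.CH x x (T.dim x), F * y * (F * y) = F * y ∧ T.R (F * y) = T.R F := by
  have hpow : ∀ (a : T.A x) (n : ℕ), val (a ^ (n + 1)) = val a ^ (n + 1) := by
    intro a n
    induction n with
    | zero => rw [zero_add, pow_one, pow_one]
    | succ n ih => rw [pow_succ, val_mul, ih, ← pow_succ]
  let f : T.A x := mk' F hF
  have hsub : val (f * f - f) = F * F - F := rfl
  have halg : IsAlgebraic ℚ f := by
    obtain ⟨n, hn⟩ := hFF
    refine ⟨(Polynomial.X * Polynomial.X - Polynomial.X) ^ (n + 1), ?_, ?_⟩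
    · refine pow_ne_zero _ fun h0 => ?_
      have h1 := congrArg (Polynomial.eval (2 : ℚ)) h0
      rw [Polynomial.eval_sub, Polynomial.eval_mul, Polynomial.eval_X, Polynomial.eval_zero] at h1
      norm_num at h1
    · rw [map_pow, map_sub, map_mul, Polynomial.aeval_X]
      refine val_inj ?_
      rw [hpow, hsub, pow_succ, hn, zero_mul, val_zero]
  have hRf : RB x f * RB x f = RB x f := vh_inj (by
    rw [vh_mul, vh_RB]
    exact hR)
  obtain ⟨y, h1, h2⟩ := exists_idem_of_algebraic (RB x) halg hRf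
  exact ⟨val y, val_mem y, congrArg val h1, congrArg vh h2⟩

private theorem se_I1_sum {y o : T.ι} {p : Fin (2 * T.dim o + 1) → T.C} (hp : T.IsMurre o p)
    {r : ℤ} {g k : T.C} (hg : g ∈ T.CH o y r) :
    g * k = ∑ l, g * p l * k := by
  rw [← Finset.sum_mul, ← Finset.mul_sum, hp.1.1.2.2.1, T.mul_Δ hg]

/-- the exceptional part splits into a part in `Cv` and a part of weights `≥ dim y` -/
theorem exc_split {N : Set T.ι} (h : T.Facts N) {y : T.ι} {t : T.C}
    (ht : t ∈ Submodule.span ℚ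
      {z | ∃ o, ∃ r s : ℤ, r + s = T.dim y + T.dim o ∧
        (o ∈ N ∨ T.dim o ≤ 1 ∨ (T.dim o = 2 ∧ (T.dim y : ℤ) + 2 ≤ 2 * r)) ∧
        ∃ g ∈ T.CH o y r, ∃ h ∈ T.CH y o s, g * h = z}) :
    ∃ u ∈ T.Cv N y, ∃ v ∈ T.Wt N y (fun p => (T.dim y : ℤ) - 1 < p), t = u + v := by
  induction ht using Submodule.span_induction with
  | mem z hz =>
    obtain ⟨o, r, s, hrs, ho, g, hg, k, hk, rfl⟩ := hz
    rcases ho with ho | ho | ⟨ho, hr⟩
    · exact ⟨g * k, Submodule.mem_sup_left (mem_fac ho hrs hg hk), 0, Submodule.zero_mem _,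
        (add_zero _).symm⟩
    · obtain ⟨p, hp⟩ := murre2 h o (by omega)
      refine ⟨g * k, Submodule.mem_sup_right ?_, 0, Submodule.zero_mem _, (add_zero _).symm⟩
      rw [se_I1_sum hp hg]
      exact Submodule.sum_mem _ fun l _ =>
        piece_mem (by omega) hp hrs hg hk l (fun h2 _ => by omega) trivial
    · obtain ⟨p, hp⟩ := murre2 h o (by omega)
      let m : Fin (2 * T.dim o + 1) := ⟨2, by omega⟩
      refine ⟨∑ l ∈ Finset.univ.erase m, g * p l * k, Submodule.mem_sup_right ?_, g * p m * k,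
        Submodule.mem_sup_right ?_, ?_⟩
      · refine Submodule.sum_mem _ fun l hl =>
          piece_mem (by omega) hp hrs hg hk l (fun _ h2 => ?_) trivial
        exact (Finset.mem_erase.1 hl).1 (Fin.ext h2)
      · refine piece_mem (by omega) hp hrs hg hk m (fun _ _ => trivial) ?_
        change (T.dim y : ℤ) - 1 < ((2 : ℕ) : ℤ) + 2 * (r - T.dim o)
        rw [ho]
        push_cast
        omega
      · rw [Finset.sum_erase_add _ _ (Finset.mem_univ m), se_I1_sum hp hg]
  | zero => exact ⟨0, Submodule.zero_mem _, 0, Submodule.zero_mem _, (add_zero _).symm⟩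
  | add a b _ _ ha hb =>
    obtain ⟨u, hu, v, hv, rfl⟩ := ha
    obtain ⟨u', hu', v', hv', rfl⟩ := hb
    exact ⟨u + u', Submodule.add_mem _ hu hu', v + v', Submodule.add_mem _ hv hv',
      add_add_add_comm _ _ _ _⟩
  | smul q a _ ha =>
    obtain ⟨u, hu, v, hv, rfl⟩ := ha
    exact ⟨q • u, Submodule.smul_mem _ q hu, q • v, Submodule.smul_mem _ q hv, smul_add _ _ _⟩

end Cycles

end SDCK
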