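import Pool.Agent.LibSD67.B
import Pool.Agent.LibSD67.E1
import Pool.Agent.LibSD67.V2

/-!
[SE K] **Homologically trivial elements of `Cv` are nilpotent.**

PROOF. `z = zN + zC`, `zN ∈ Fac N x x (dim x)`, `zC ∈ Sfc x False ⊤`, `R z = 0`. `exists_sfc_sum`: `zC = ∑ α : Fin n, t α`,
`t α = b α * p α * a α` (`p α` the `k α`-th piece of a Murre decomposition of `V (j α)`, rational coefficients
absorbed in `b α`), weights `w α = k α + 2 ρ α`, not middle pieces of surfaces.
* `t α * z * t β = 0` if `w β ≤ w α` (`sfc_trivial`): it is `b α * (pα * (a α * z * b β) * pβ) * a β`, the bracket is `0`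
  by `van` from `V (j β)` to `V (j α)`: codimension `c = dim (j β) + ρ β - ρ α`,
  `k β + 2 (c - dim (j β)) = k β + 2 ρ β - 2 ρ α ≤ k α`, no middle pieces, `R` is `0` since `R z = 0`.
* `rk α = #{β | w β < w α} < n`. Claim: for all `m`, `β`: `rk β < m → (z * zC) ^ m * (z * t β) = 0`. Induction on `m`:
  `(z * zC) ^ (m+1) * (z * t β) = ∑ α, (z * zC) ^ m * (z * t α) * z * t β`; if `w β ≤ w α`: `t α * z * t β = 0`;
  otherwise `rk α < rk β ≤ m`: induction hypothesis. So `(z * zC) ^ (n + 1) = ∑ β, (z * zC) ^ n * (z * t β) = 0`.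
* `z * z = z * zN + z * zC`, `z * zN ∈ nn` (`mul_fac`; `R z = 0`). Modulo the ideal `nn`:
  `(z * z) ^ (n + 1) ≡ (z * zC) ^ (n + 1) = 0`, so `z ^ (2 n + 2) ∈ nn`, nilpotent by `nn_nilpotent`.
  (`z, zC ∈ CH x x (dim x)`; `mul_nn_mul` with `x = y`, `Δ x` as unit; by induction on `m ≥ 1`:
  `(z * z) ^ m - (z * zC) ^ m ∈ nn`.)
-/

set_option autoImplicit false

namespace SDCK

universe u v

namespace Cycles

variable {T : Cycles.{u, v}}

theorem sfc_trivial {N : Set T.ι} (h : T.Facts N) {x : T.ι} {z : T.C}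
    (hz : z ∈ T.CH x x (T.dim x)) (hR : T.R z = 0) {i j : T.ι} (hi : T.dim i ≤ 2)
    (hj : T.dim j ≤ 2) {p : Fin (2 * T.dim i + 1) → T.C} (hp : T.IsMurre i p)
    {q : Fin (2 * T.dim j + 1) → T.C} (hq : T.IsMurre j q) (k : Fin (2 * T.dim i + 1))
    (l : Fin (2 * T.dim j + 1)) (hk : ¬ (T.dim i = 2 ∧ (k : ℕ) = 2))
    (hl : ¬ (T.dim j = 2 ∧ (l : ℕ) = 2)) {ρ ρ' : ℤ}
    (hw : ((l : ℕ) : ℤ) + 2 * ρ' ≤ (k : ℕ) + 2 * ρ) {b a b' a' : T.C}
    (ha : a ∈ T.CH x i (T.dim x - ρ)) (hb' : b' ∈ T.CH j x (T.dim j + ρ')) :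
    b * p k * a * z * (b' * q l * a') = 0 := by
  have h1 : a * z * b' ∈ T.CH j i (T.dim j + ρ' - ρ) := by
    have h2 := T.mul_mem (T.mul_mem ha hz) hb'
    have h3 : (T.dim x : ℤ) - ρ + T.dim x - T.dim x + (T.dim j + ρ') - T.dim x =
        T.dim j + ρ' - ρ := by ring
    rwa [h3] at h2
  have h2 : p k * (a * z * b') * q l = 0 := by
    refine van h hj hi hq hp h1 l k ?_ (Or.inr ⟨hl, hk⟩) ?_
    · linarith
    · simp only [map_mul, hR, mul_zero, zero_mul]
  have h3 : b * p k * a * z * (b' * q l * a') = b * (p k * (a * z * b') * q l) * a' := by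
    simp only [mul_assoc]
  rw [h3, h2, mul_zero, zero_mul]

private theorem se_K_sum {x : T.ι} {z : T.C} (hz : z ∈ T.Sfc x False (fun _ => True)) :
    ∃ (n : ℕ) (j : Fin n → T.ι) (p : ∀ α : Fin n, Fin (2 * T.dim (j α) + 1) → T.C)
      (k : ∀ α : Fin n, Fin (2 * T.dim (j α) + 1)) (ρ : Fin n → ℤ) (b a : Fin n → T.C),
      (∀ α, T.dim (j α) ≤ 2) ∧ (∀ α, T.IsMurre (j α) (p α)) ∧
      (∀ α, ¬ (T.dim (j α) = 2 ∧ (k α : ℕ) = 2)) ∧
      (∀ α, b α ∈ T.CH (j α) x (T.dim (j α) + ρ α)) ∧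
      (∀ α, a α ∈ T.CH x (j α) (T.dim x - ρ α)) ∧ z = ∑ α, b α * p α (k α) * a α := by
  unfold Sfc at hz
  rw [Submodule.mem_span_set'] at hz
  obtain ⟨n, f, g, hfg⟩ := hz
  have hg : ∀ α : Fin n, ∃ (j : T.ι) (p : Fin (2 * T.dim j + 1) → T.C)
    (k : Fin (2 * T.dim j + 1)) (ρ : ℤ), T.dim j ≤ 2 ∧ T.IsMurre j p ∧
    (T.dim j = 2 → (k : ℕ) = 2 → False) ∧ True ∧
      ∃ b ∈ T.CH j x (T.dim j + ρ), ∃ a ∈ T.CH x j (T.dim x - ρ), b * p k * a = (g α : T.C) :=
    fun α => (g α).2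
  choose j p k ρ hj hp hmid hP b hb a ha hab using hg
  refine ⟨n, j, p, k, ρ, fun α => f α • b α, a, hj, hp, fun α hα => hmid α hα.1 hα.2,
    fun α => Submodule.smul_mem _ _ (hb α), ha, ?_⟩
  rw [← hfg]
  refine Finset.sum_congr rfl fun α _ => ?_
  rw [← hab α, smul_mul_assoc, smul_mul_assoc]

private theorem se_K_pow_mem {x : T.ι} {z : T.C} (hz : z ∈ T.CH x x (T.dim x)) (m : ℕ) :
    z ^ (m + 1) ∈ T.CH x x (T.dim x) := by
  induction m with
  | zero => rwa [zero_add, pow_one]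
  | succ m ih =>
    rw [pow_succ]
    have h1 := T.mul_mem ih hz
    have h2 : (T.dim x : ℤ) + T.dim x - T.dim x = T.dim x := by ring
    rwa [h2] at h1

private theorem se_K_claim {n : ℕ} {z zC : T.C} (t : Fin n → T.C) (w : Fin n → ℤ)
    (hsum : zC = ∑ α, t α) (h0 : ∀ α β, w β ≤ w α → t α * z * t β = 0) (m : ℕ) :
    ∀ β, (Finset.univ.filter fun γ => w γ < w β).card < m → (z * zC) ^ m * (z * t β) = 0 := by
  induction m with
  | zero =>
    intro β hβ
    exact absurd hβ (Nat.not_lt_zero _)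
  | succ m ih =>
    intro β hβ
    have h1 : (z * zC) ^ (m + 1) * (z * t β) = ∑ α, (z * zC) ^ m * (z * t α) * z * t β := by
      rw [pow_succ]
      conv_lhs => enter [1, 2]; rw [hsum]
      rw [Finset.mul_sum, Finset.mul_sum, Finset.sum_mul]
      refine Finset.sum_congr rfl fun α _ => ?_
      simp only [mul_assoc]
    rw [h1]
    refine Finset.sum_eq_zero fun α _ => ?_
    by_cases hαβ : w β ≤ w α
    · have h2 : (z * zC) ^ m * (z * t α) * z * t β = (z * zC) ^ m * z * (t α * z * t β) := by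
        simp only [mul_assoc]
      rw [h2, h0 α β hαβ, mul_zero]
    · push Not at hαβ
      have h3 : (Finset.univ.filter fun γ => w γ < w α).card <
          (Finset.univ.filter fun γ => w γ < w β).card := by
        refine Finset.card_lt_card ?_
        rw [Finset.ssubset_iff_of_subset]
        · refine ⟨α, ?_, ?_⟩
          · rw [Finset.mem_filter]
            exact ⟨Finset.mem_univ _, hαβ⟩
          · rw [Finset.mem_filter]
            exact fun h => lt_irrefl _ h.2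
        · intro γ hγ
          rw [Finset.mem_filter] at hγ ⊢
          exact ⟨hγ.1, hγ.2.trans hαβ⟩
      rw [ih α (by omega), zero_mul, zero_mul]

theorem cv_nilpotent {N : Set T.ι} (h : T.Facts N) {x : T.ι} {z : T.C} (hz : z ∈ T.Cv N x)
    (hR : T.R z = 0) : IsNilpotent z := by
  have hzC0 : z ∈ T.CH x x (T.dim x) := cv_le hz
  obtain ⟨zN, hzN, zC, hzC, hsplit⟩ := Submodule.mem_sup.mp hz
  have hzC1 : zC ∈ T.CH x x (T.dim x) := cv_le (Submodule.mem_sup_right hzC : zC ∈ T.Cv N x)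
  obtain ⟨n, j, p, k, ρ, b, a, hj, hp, hmid, hb, ha, hsum⟩ := se_K_sum hzC
  have h0 : ∀ α β, ((k β : ℕ) : ℤ) + 2 * ρ β ≤ ((k α : ℕ) : ℤ) + 2 * ρ α →
      (b α * p α (k α) * a α) * z * (b β * p β (k β) * a β) = 0 := by
    intro α β hw
    exact sfc_trivial h hzC0 hR (hj α) (hj β) (hp α) (hp β) (k α) (k β) (hmid α) (hmid β) hw
      (ha α) (hb β)
  have hcl := se_K_claim (fun α => b α * p α (k α) * a α)
    (fun α => ((k α : ℕ) : ℤ) + 2 * ρ α) hsum h0 n
  have hnil : (z * zC) ^ (n + 1) = 0 := by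
    rw [pow_succ]
    conv_lhs => enter [2]; rw [hsum]
    rw [Finset.mul_sum, Finset.mul_sum]
    refine Finset.sum_eq_zero fun β _ => hcl β ?_
    have h1 : (Finset.univ.filter fun γ : Fin n => ((k γ : ℕ) : ℤ) + 2 * ρ γ <
        ((k β : ℕ) : ℤ) + 2 * ρ β).card < (Finset.univ : Finset (Fin n)).card := by
      refine Finset.card_lt_card ?_
      rw [Finset.ssubset_iff_of_subset (Finset.filter_subset _ _)]
      refine ⟨β, Finset.mem_univ _, ?_⟩
      rw [Finset.mem_filter]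
      exact fun h => lt_irrefl _ h.2
    rwa [Finset.card_univ, Fintype.card_fin] at h1
  have hmod : ∀ m : ℕ, (z * z) ^ m - (z * zC) ^ m ∈ T.nn N x := by
    intro m
    induction m with
    | zero =>
      rw [pow_zero, pow_zero, sub_self]
      exact Submodule.zero_mem _
    | succ m ih =>
      have h1 : (z * z) ^ (m + 1) - (z * zC) ^ (m + 1) =
          z ^ (2 * m + 1) * zN + ((z * z) ^ m - (z * zC) ^ m) * (z * zC) := by
        have h2 : z ^ (2 * m + 1) = (z * z) ^ m * z := by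
          rw [pow_succ, pow_mul, pow_two]
        have h3 : zN = z - zC := by rw [← hsplit]; abel
        rw [h2, h3, pow_succ, pow_succ]
        noncomm_ring
      rw [h1]
      refine Submodule.add_mem _ ?_ ?_
      · refine ⟨?_, ?_⟩
        · have h2 := mul_fac (se_K_pow_mem hzC0 (2 * m)) hzN
          have h3 : (T.dim x : ℤ) + T.dim x - T.dim x = T.dim x := by ring
          rwa [h3] at h2
        · rw [map_mul, map_pow, hR, zero_pow (by omega), zero_mul]
      · refine ⟨?_, ?_⟩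
        · have h2 := fac_mul ih.1 (T.mul_mem hzC0 hzC1)
          have h3 : (T.dim x : ℤ) + (T.dim x + T.dim x - T.dim x) - T.dim x = T.dim x := by ring
          rwa [h3] at h2
        · rw [map_mul, ih.2, zero_mul]
  have h1 := hmod (n + 1)
  rw [hnil, sub_zero] at h1
  obtain ⟨K, hK⟩ := nn_nilpotent h h1
  refine ⟨2 * (n + 1) * K, ?_⟩
  rw [pow_mul, pow_mul, pow_two]
  exact hK

end Cycles

end SDCK
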