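import Pool.Agent.LibSD67.G1
import Pool.Agent.LibSD67.I1
import Pool.Agent.LibSD67.K

/-!
[SE I2] Modifications.

`modif_iff`: `Modif N x y` implies `LowGen N x ↔ LowGen N y`. Let `d = dim x = dim y`,
`a ∈ CH x y d`, `star a * a = Δ x`, `t = Δ y - a * star a` (idempotent, `star t = t`,
`t * a = a - a * (star a * a) = 0`, `star a * t = 0`), `t` in the span of the `g * h` as in `Modif`.

(→) `E ∈ Gen N x` as in `LowGen`. `E' = a * E * star a + t`: in `Gen N y` (`mul_gen_mul`; the span is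
`≤ Gen`), `E' * E' = E'`, and for `k < d`: `R E' * π y k = R a * R E * R (star a) * π y k + R t * π y k
= R a * (R E * π x k) * R (star a) + .. = R (a * star a + t) * π y k = π y k` (`commute_π'`, for `star a` with
`T.star_mem`; `ρ_mul_π`).

(←) `E₀ ∈ Gen N y` as in `LowGen`. `exists_cut` with `n = d - 1` gives `u`, `v`; `E = E₀ * u * E₀`.
`E * E - E ∈ nn` (`cut_mul`, `m = n`). `R E * π k = π k` for `k < d` and `= 0` for `k ≥ d` (`cut_R`).
`F = star a * E * a ∈ Gen N x` (`mul_gen_mul`). `F * F - F ∈ Cv N x`, `R (F * F - F) = 0`: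
`F * F = star a * E * (Δ y - t) * E * a = F - z + star a * (E * E - E) * a`, `z = star a * E * t * E * a`
(`mul_nn_mul` for the last, `nn ≤ Fac N ≤ Cv`). `R z = 0`:
`R z = ∑ k, R z * π x k` and `R z * π x k = R (star a) * R E * R t * (R E * π y k) * R a` (`commute_π'`, `commute_π`) is
`0` for `k ≥ d`, and for `k < d` it is `R (star a) * R E * R t * π y k * R a = R (..) * R (t * a) * π x k = 0`.
`z ∈ Cv N x`: `exc_split`: `t = u' + v'`, `u' ∈ Cv N y`, `v' ∈ Wt N y (d - 1 < ·)`;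
`v' * E = (v' * E₀ * u) * E₀ ∈ nn` (`wt_mul_mul`), so `E * t * E ∈ Cv N y` (`cv_mul`), and
`star a * _ * a ∈ Cv N x` (`cv_mul`). So `F * F - F` is nilpotent by `cv_nilpotent`. For `k < d`:
`R F * π x k = R (star a) * (R E * π y k) * R a = R (star a) * π y k * R a = R (star a * a) * π x k = π x k`, and
`R F * R F = R F` since `R (F * F - F) = 0`.
`lift_idem`: `F' = F * y`, `F' * F' = F'`, in `Gen` (`mul_gen_mul` or `fac_mul`), `R F' = R F`.
-/

set_option autoImplicit false

namespace SDCK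

universe u v

namespace Cycles

variable {T : Cycles.{u, v}}

/-- the exceptional part is in `Gen` -/
private theorem se_i2_exc_gen {N : Set T.ι} {y : T.ι} {t : T.C}
    (ht : t ∈ Submodule.span ℚ
      {z | ∃ o, ∃ r s : ℤ, r + s = T.dim y + T.dim o ∧
        (o ∈ N ∨ T.dim o ≤ 1 ∨ (T.dim o = 2 ∧ (T.dim y : ℤ) + 2 ≤ 2 * r)) ∧
        ∃ g ∈ T.CH o y r, ∃ h ∈ T.CH y o s, g * h = z}) : t ∈ T.Gen N y := by
  refine Submodule.span_mono ?_ ht
  rintro z ⟨o, r, s, hrs, ho, g, hg, h, hh, hz⟩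
  refine ⟨o, ?_, r, s, hrs, g, hg, h, hh, hz⟩
  rcases ho with ho | ho | ⟨ho, -⟩
  · exact Or.inl ho
  · exact Or.inr (ho.trans one_le_two)
  · exact Or.inr ho.le

private theorem se_i2_fwd {N : Set T.ι} (h : T.Facts N) {x y : T.ι} (hd : T.dim x = T.dim y)
    {a : T.C} (ha : a ∈ T.CH x y (T.dim x)) (h1 : star a * a = T.Δ x)
    (ht : T.Δ y - a * star a ∈ Submodule.span ℚ
      {z | ∃ o, ∃ r s : ℤ, r + s = T.dim y + T.dim o ∧
        (o ∈ N ∨ T.dim o ≤ 1 ∨ (T.dim o = 2 ∧ (T.dim y : ℤ) + 2 ≤ 2 * r)) ∧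
        ∃ g ∈ T.CH o y r, ∃ h ∈ T.CH y o s, g * h = z}) (hx : T.LowGen N x) : T.LowGen N y := by
  obtain ⟨E, hEg, hEE, hER⟩ := hx
  have hsa : star a ∈ T.CH y x (T.dim x) := T.star_mem ha
  have hsa' : star a ∈ T.CH y x (T.dim y) := by rw [← hd]; exact hsa
  have hta : (T.Δ y - a * star a) * a = 0 := by
    rw [sub_mul, mul_assoc, h1, T.Δ_mul ha, T.mul_Δ ha, sub_self]
  have hat : star a * (T.Δ y - a * star a) = 0 := by
    rw [mul_sub, ← mul_assoc, h1, T.mul_Δ hsa, T.Δ_mul hsa, sub_self]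
  have htg := se_i2_exc_gen ht
  set t : T.C := T.Δ y - a * star a with htdef
  have hΔt : T.Δ y * t = t := T.Δ_mul (gen_le htg)
  have htt : t * t = t := by
    have e : t * t = T.Δ y * t - a * (star a * t) := by
      conv_lhs => rw [htdef]
      rw [sub_mul, mul_assoc]
    rw [e, hΔt, hat, mul_zero, sub_zero]
  refine ⟨a * E * star a + t, Submodule.add_mem _ (mul_gen_mul hd ha hEg hsa) htg, ?_, ?_⟩
  · have e1 : a * E * star a * (a * E * star a) = a * E * star a := by
      have : a * E * star a * (a * E * star a) = a * (E * (star a * a) * E) * star a := by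
        simp only [mul_assoc]
      rw [this, h1, T.mul_Δ (gen_le hEg), hEE]
    have e2 : a * E * star a * t = 0 := by
      rw [mul_assoc, hat, mul_zero]
    have e3 : t * (a * E * star a) = 0 := by
      have : t * (a * E * star a) = t * a * (E * star a) := by simp only [mul_assoc]
      rw [this, hta, zero_mul]
    rw [add_mul, mul_add, mul_add, e1, e2, e3, htt, add_zero, zero_add]
  · intro k
    have hk : (k : ℕ) < T.dim x := by rw [hd]; exact k.2
    have hc := commute_π' h hd.symm hsa' (low T k) (low T ⟨(k : ℕ), hk⟩ : Fin (2 * T.dim x + 1)) rfl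
    have hEk := hER ⟨(k : ℕ), hk⟩
    have e1 : T.R (a * E * star a) * T.π y (low T k) = T.R (a * star a) * T.π y (low T k) := by
      rw [map_mul, map_mul, mul_assoc, hc, mul_assoc, ← mul_assoc (T.R E), hEk, ← hc, ← mul_assoc,
        ← map_mul]
    have e2 : T.R t * T.π y (low T k) =
        T.π y (low T k) - T.R (a * star a) * T.π y (low T k) := by
      rw [htdef, map_sub, sub_mul, ρ_mul_π]
    rw [map_add, add_mul, e1, e2, add_sub_cancel]

private theorem se_i2_bwd {N : Set T.ι} (h : T.Facts N) {x y : T.ι} (hd : T.dim x = T.dim y)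
    {a : T.C} (ha : a ∈ T.CH x y (T.dim x)) (h1 : star a * a = T.Δ x)
    (ht : T.Δ y - a * star a ∈ Submodule.span ℚ
      {z | ∃ o, ∃ r s : ℤ, r + s = T.dim y + T.dim o ∧
        (o ∈ N ∨ T.dim o ≤ 1 ∨ (T.dim o = 2 ∧ (T.dim y : ℤ) + 2 ≤ 2 * r)) ∧
        ∃ g ∈ T.CH o y r, ∃ h ∈ T.CH y o s, g * h = z}) (hy : T.LowGen N y) : T.LowGen N x := by
  obtain ⟨E₀, hE₀g, hE₀E₀, hE₀R⟩ := hy
  have ha' : a ∈ T.CH x y (T.dim y) := by rw [← hd]; exact ha
  have hsa : star a ∈ T.CH y x (T.dim x) := T.star_mem ha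
  have hsa' : star a ∈ T.CH y x (T.dim y) := by rw [← hd]; exact hsa
  have hta : (T.Δ y - a * star a) * a = 0 := by
    rw [sub_mul, mul_assoc, h1, T.Δ_mul ha, T.mul_Δ ha, sub_self]
  obtain ⟨u', hu', v', hv', htuv⟩ := exc_split h ht
  have haa : a * star a = T.Δ y - (T.Δ y - a * star a) := by rw [sub_sub_cancel]
  generalize T.Δ y - a * star a = t at ht hta htuv haa
  obtain ⟨u, hu, v, hv, huv⟩ := exists_cut h hE₀g hE₀E₀ ((T.dim y : ℤ) - 1)
  have hEE := cut_mul h le_rfl hE₀g hE₀E₀ hu hv huv hu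
  have hER := cut_R h hE₀g (sub_one_lt (T.dim y : ℤ)) hE₀R hu hv huv
  have hEg : E₀ * u * E₀ ∈ T.Gen N y := mul_gen_mul rfl (gen_le hE₀g) (wt_le_gen hu) (gen_le hE₀g)
  have hvE : v' * (E₀ * u * E₀) = (v' * E₀ * u) * E₀ := by simp only [mul_assoc]
  generalize E₀ * u * E₀ = E at hEE hER hEg hvE
  have hE : E ∈ T.CH y y (T.dim y) := gen_le hEg
  have hvEn : v' * E₀ * u ∈ T.nn N y :=
    wt_mul_mul h (fun p q hp hq => lt_of_le_of_lt hq hp) hv' (gen_le hE₀g) hu
  -- `E * t * E` is in `Cv`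
  have hEtE : E * t * E ∈ T.Cv N y := by
    have e1 : E * t * E = E * u' * E + E * (v' * E₀ * u) * E₀ := by
      rw [htuv, mul_add, add_mul, mul_assoc E v' E, hvE]
      simp only [mul_assoc]
    rw [e1]
    exact Submodule.add_mem _ (cv_mul rfl hE hu' hE)
      (Submodule.mem_sup_left (mul_nn_mul rfl hE hvEn (gen_le hE₀g)).1)
  have hzF : star a * (E * t * E) * a ∈ T.Cv N x := cv_mul hd.symm hsa' hEtE ha'
  have hzC := cv_le hzF
  have hcom : ∀ (k : Fin (2 * T.dim x + 1)) (l : Fin (2 * T.dim y + 1)), (k : ℕ) = l →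
      T.R a * T.π x k = T.π y l * T.R a := fun k l hkl => commute_π' h hd ha k l hkl
  have hRz : T.R (star a * (E * t * E) * a) = 0 := by
    have e1 : T.R (star a * (E * t * E) * a) =
        ∑ k, T.R (star a * (E * t * E) * a) * T.π x k := by
      rw [← Finset.mul_sum, T.π_sum, ← map_mul, T.mul_Δ hzC]
    rw [e1]
    refine Finset.sum_eq_zero fun k _ => ?_
    have hkl : (k : ℕ) < 2 * T.dim y + 1 := by rw [← hd]; exact k.2
    have hc := hcom k ⟨(k : ℕ), hkl⟩ rfl
    have hRE := hER ⟨(k : ℕ), hkl⟩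
    have e2 : T.R (star a * (E * t * E) * a) * T.π x k =
        T.R (star a) * T.R E * T.R t * (T.R E * T.π y ⟨(k : ℕ), hkl⟩) * T.R a := by
      simp only [map_mul, mul_assoc]
      rw [hc]
    rw [e2, hRE]
    split_ifs with hk
    · have e3 : T.R (star a) * T.R E * T.R t * T.π y ⟨(k : ℕ), hkl⟩ * T.R a =
          T.R (star a) * T.R E * T.R (t * a) * T.π x k := by
        rw [mul_assoc _ (T.π y _), ← hc, map_mul]
        simp only [mul_assoc]
      rw [e3, hta, map_zero, mul_zero, zero_mul]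
    · rw [mul_zero, zero_mul]
  have hFg : star a * E * a ∈ T.Gen N x := mul_gen_mul hd.symm hsa' hEg ha'
  have hnn := mul_nn_mul hd.symm hsa' hEE ha'
  have hFe : star a * E * a * (star a * E * a) - star a * E * a =
      star a * (E * E - E) * a - star a * (E * t * E) * a := by
    have e2 : star a * E * a * (star a * E * a) = star a * (E * (a * star a) * E) * a := by
      simp only [mul_assoc]
    rw [e2, haa, mul_sub E, T.mul_Δ hE, sub_mul, mul_sub (star a), sub_mul, mul_sub (star a), sub_mul]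
    abel
  have hFF : star a * E * a * (star a * E * a) - star a * E * a ∈ T.Cv N x := by
    rw [hFe]
    exact Submodule.sub_mem _ (Submodule.mem_sup_left hnn.1) hzF
  have hFR : T.R (star a * E * a * (star a * E * a) - star a * E * a) = 0 := by
    rw [hFe, map_sub, hnn.2, hRz, sub_zero]
  have hRFF : T.R (star a * E * a) * T.R (star a * E * a) = T.R (star a * E * a) := by
    rw [← map_mul]
    rw [map_sub] at hFR
    exact sub_eq_zero.mp hFR
  obtain ⟨w, hw, hwi, hwR⟩ := lift_idem (gen_le hFg) (cv_nilpotent h hFF hFR) hRFF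
  refine ⟨star a * E * a * w, ?_, hwi, ?_⟩
  · have e := fac_mul hFg hw
    rwa [add_sub_cancel_right] at e
  · intro k
    have hkl : (k : ℕ) < 2 * T.dim y + 1 := by have := k.2; omega
    have hc := hcom (low T k) ⟨(k : ℕ), hkl⟩ rfl
    have hRE := hER ⟨(k : ℕ), hkl⟩
    rw [if_pos (by
      have := k.2
      show ((k : ℕ) : ℤ) ≤ (T.dim y : ℤ) - 1
      omega)] at hRE
    rw [hwR, map_mul, map_mul, mul_assoc, hc, mul_assoc, ← mul_assoc (T.R E), hRE, ← hc,
      ← mul_assoc, ← map_mul, h1, ρ_mul_π]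

theorem modif_iff {N : Set T.ι} (h : T.Facts N) {x y : T.ι} (hxy : T.Modif N x y) :
    T.LowGen N x ↔ T.LowGen N y := by
  obtain ⟨hd, a, ha, h1, ht⟩ := hxy
  exact ⟨se_i2_fwd h hd ha h1 ht, se_i2_bwd h hd ha h1 ht⟩

end Cycles

end SDCK
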