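import Pool.Agent.LibSD67.K
import Pool.Agent.LibSD67.M1

/-!
[SE M2] Murre decompositions of surfaces, from lifts of `π 0`, `π 1` that factor through points and curves.

* `through_one_nilpotent`: `z ∈ Through i 1`, `R z = 0`: `z` is nilpotent by `cv_nilpotent`, since `Through i 1 ≤ Cv N i`:
  span; `a * b` through `C`, `dim C ≤ 1`, `a ∈ CH C i (dim C)`, `b ∈ CH i C (dim i)`; `h.murre C` (only used for
  `dim C ≤ 1`) gives `r`, `a * b = a * Δ C * b = ∑ m, a * r m * b`, each in `Sfc i False ⊤` with `ρ = 0`.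
* `murre_two`: `c₀ ∈ Through i 0`, `c₁ ∈ Through i 1`, `R = π 0, π 1`. `c * c - c` is in `Through i 1` with `R = 0`, so
  nilpotent, so `c` is algebraic over `ℚ` (polynomial `(X ^ 2 - X) ^ n`). `selfDual_of_lifts i 1` (LibSD51/Main, both
  branches of the `if` are `1`; `T.dim i = 2`) gives `P`, `P (low k) ∈ Through i 1`.
  `P 0 ∈ Through i 0`: let `p = P 0`; an idempotent `f ∈ Through i 0` with `R f = π 0`: `exists_idem_of_algebraic` in
  `T.A i` (`RB i`, `mk'`, `val`; `isAlgebraic_of_val`) gives `f = c₀ * y` (`through_mul`). Or avoid idempotency of `f`: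
  only `R f = π 0` and `f ∈ Through i 0` is needed, so `f = c₀` works.
  `ν = p - p * f * p ∈ Through i 1`, `R ν = 0`, nilpotent, `p * ν = ν = ν * p`. For all `m ≥ 1`:
  `ν ^ m - p ∈ Through i 0`: `m = 1`: `- p * f * p`; step: `ν ^ (m+1) - p = ν ^ m * (ν - p) + (ν ^ m - p)` (`ν ^ m * p = ν ^ m`).
  With `ν ^ m = 0`: `p ∈ Through i 0`.
-/

set_option autoImplicit false

namespace SDCK

universe u v

namespace Cycles

variable {T : Cycles.{u, v}}

theorem through_one_nilpotent {N : Set T.ι} (h : T.Facts N) {i : T.ι} {z : T.C}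
    (hz : z ∈ T.Through i 1) (hR : T.R z = 0) : IsNilpotent z := by
  refine cv_nilpotent h (?_ : z ∈ T.Cv N i) hR
  have h1 : T.Through i 1 ≤ T.Cv N i := by
    refine Submodule.span_le.2 ?_
    rintro _ ⟨j, hj, a, ha, b, hb, rfl⟩
    obtain ⟨r, hr⟩ := murre1 h j (by omega)
    have h2 : a * b = ∑ m, a * r m * b := by
      rw [← Finset.sum_mul, ← Finset.mul_sum, hr.1.1.2.2.1, T.mul_Δ ha]
    change a * b ∈ _
    rw [h2]
    refine Submodule.sum_mem _ fun m _ => Submodule.mem_sup_right ?_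
    refine Submodule.subset_span ⟨j, r, m, 0, by omega, hr, fun h3 _ => by omega, trivial, a, ?_, b,
      ?_, rfl⟩
    · rwa [add_zero]
    · rwa [sub_zero]
  exact h1 hz

private theorem se_M2_mono {i : T.ι} : T.Through i 0 ≤ T.Through i 1 := by
  refine Submodule.span_mono ?_
  rintro z ⟨j, hj, r⟩
  exact ⟨j, hj.trans (by omega), r⟩

private theorem se_M2_alg {N : Set T.ι} (h : T.Facts N) {i : T.ι} {c : T.C}
    (hc : c ∈ T.Through i 1) {k : Fin (2 * T.dim i + 1)} (hR : T.R c = T.π i k) :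
    IsAlgebraic ℚ c := by
  have h1 : c * c - c ∈ T.Through i 1 := Submodule.sub_mem _ (mul_through (through_le hc) hc) hc
  have h2 : T.R (c * c - c) = 0 := by
    have h3 : T.π i k * T.π i k = T.π i k := ((T.π_ortho i).idem _).eq
    rw [map_sub, map_mul, hR, h3, sub_self]
  obtain ⟨n, hn⟩ := through_one_nilpotent h h1 h2
  refine ⟨(Polynomial.X * (Polynomial.X - 1)) ^ n, ?_, ?_⟩
  · exact pow_ne_zero _ (mul_ne_zero Polynomial.X_ne_zero (Polynomial.X_sub_C_ne_zero (1 : ℚ)))
  · rw [map_pow, map_mul, map_sub, map_one, Polynomial.aeval_X, mul_sub, mul_one, hn]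

private theorem se_M2_pow_mem {x : T.ι} {z : T.C} (hz : z ∈ T.CH x x (T.dim x)) (m : ℕ) :
    z ^ (m + 1) ∈ T.CH x x (T.dim x) := by
  induction m with
  | zero => rwa [zero_add, pow_one]
  | succ m ih =>
    rw [pow_succ]
    have h1 := T.mul_mem ih hz
    have h2 : (T.dim x : ℤ) + T.dim x - T.dim x = T.dim x := by ring
    rwa [h2] at h1

/-- an idempotent lift of `π k` that factors through curves factors through points if some lift
does -/
private theorem se_M2_low {N : Set T.ι} (h : T.Facts N) {i : T.ι} {k : Fin (2 * T.dim i + 1)}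
    {p f : T.C} (hp : p ∈ T.Through i 1) (hpp : p * p = p) (hRp : T.R p = T.π i k)
    (hf : f ∈ T.Through i 0) (hRf : T.R f = T.π i k) : p ∈ T.Through i 0 := by
  have hππ : T.π i k * T.π i k = T.π i k := ((T.π_ortho i).idem _).eq
  have hpm : p ∈ T.CH i i (T.dim i) := through_le hp
  have hpfp : p * f * p ∈ T.Through i 0 := through_mul hpm (mul_through hpm hf)
  set ν := p - p * f * p with hν
  have hν1 : ν ∈ T.Through i 1 := Submodule.sub_mem _ hp (se_M2_mono hpfp)
  have hRν : T.R ν = 0 := by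
    rw [hν, map_sub, map_mul, map_mul, hRp, hRf, hππ, hππ, sub_self]
  obtain ⟨n, hn⟩ := through_one_nilpotent h hν1 hRν
  have hνp : ν * p = ν := by
    rw [hν, sub_mul, mul_assoc (p * f), hpp]
  have hνm : ∀ m : ℕ, ν ^ (m + 1) * p = ν ^ (m + 1) := by
    intro m
    rw [pow_succ, mul_assoc, hνp]
  have hkey : ∀ m : ℕ, ν ^ (m + 1) - p ∈ T.Through i 0 := by
    intro m
    induction m with
    | zero =>
      have h1 : ν ^ (0 + 1) - p = -(p * f * p) := by
        rw [zero_add, pow_one, hν]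
        abel
      rw [h1]
      exact Submodule.neg_mem _ hpfp
    | succ m ih =>
      have h1 : ν ^ (m + 1 + 1) - p = ν ^ (m + 1) * (ν - p) + (ν ^ (m + 1) - p) := by
        rw [mul_sub, hνm m, ← pow_succ]
        abel
      have h2 : ν - p = -(p * f * p) := by
        rw [hν]
        abel
      rw [h1, h2]
      refine Submodule.add_mem _ (mul_through (se_M2_pow_mem (through_le hν1) m) ?_) ih
      exact Submodule.neg_mem _ hpfp
  have h1 := hkey n
  rw [pow_succ, hn, zero_mul, zero_sub] at h1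
  have h2 := Submodule.neg_mem _ h1
  rwa [neg_neg] at h2

theorem murre_two {N : Set T.ι} (h : T.Facts N) {i : T.ι} (hi : T.dim i = 2)
    (h0 : ∀ k : Fin (2 * T.dim i + 1), (k : ℕ) = 0 → ∃ c ∈ T.Through i 0, T.R c = T.π i k)
    (h1 : ∀ k : Fin (2 * T.dim i + 1), (k : ℕ) = 1 → ∃ c ∈ T.Through i 1, T.R c = T.π i k) :
    ∃ p, T.IsMurre i p := by
  obtain ⟨P, hP, hT⟩ := selfDual_of_lifts i 1 le_rfl (by omega) (fun k => by
    rw [ite_self]
    have hk := k.2
    have hkv : ((low T k : Fin (2 * T.dim i + 1)) : ℕ) = (k : ℕ) := rfl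
    rcases (show (k : ℕ) = 0 ∨ (k : ℕ) = 1 by omega) with h2 | h2
    · obtain ⟨c, hc, hRc⟩ := h0 (low T k) (hkv.trans h2)
      exact ⟨c, se_M2_mono hc, se_M2_alg h (se_M2_mono hc) hRc, hRc⟩
    · obtain ⟨c, hc, hRc⟩ := h1 (low T k) (hkv.trans h2)
      exact ⟨c, hc, se_M2_alg h hc hRc, hRc⟩)
  refine ⟨P, hP, ?_, ?_⟩
  · intro k hk
    obtain ⟨f, hf, hRf⟩ := h0 k hk
    have h2 : k = low T ⟨0, by omega⟩ := by
      apply Fin.ext
      exact hk
    have h3 : P k ∈ T.Through i 1 := by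
      rw [h2]
      exact hT _
    exact se_M2_low h h3 (hP.1.2.1.idem k).eq (hP.1.2.2.2 k) hf hRf
  · intro k hk
    have h2 : k = low T ⟨1, by omega⟩ := by
      apply Fin.ext
      exact hk
    rw [h2]
    exact hT _

theorem murre2 {N : Set T.ι} (h : T.Facts N) (i : T.ι) (hi : T.dim i ≤ 2) :
    ∃ p, T.IsMurre i p := by
  by_cases h1 : T.dim i ≤ 1
  · exact murre1 h i h1
  · have h2 : T.dim i = 2 := by omega
    exact murre_two h h2 (h.zero i hi) (h.one i h2)

end Cycles

end SDCK
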