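import Pool.Agent.LibSD67.Defs

/-!
[SE V1] Divisors and the pieces of Murre decompositions.

`dim o = 0` everywhere, `hp : T.IsMurre i p`, so `p 0 ∈ Through i 0` is a sum of `β * α`, `α ∈ CH i o' (dim i)`,
`β ∈ CH o' i 0`, `dim o' = 0`; `p 1 ∈ Through i 1`: sum of `β * α`, `α ∈ CH i C (dim i)`, `β ∈ CH C i (dim C)`,
`dim C ≤ 1`.
* `zero_of_R`: `z ∈ CH i j c`, `c ≤ 0`, `R z = 0`: `T.CH_neg`, `T.CH_zero`.
* `fund_mul`: `y ∈ CH i o 0`, `k ≠ 2 dim i`: `y * p k ∈ CH i o 0` (`0 + dim i - dim i`), `R y * π i k = 0`: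
  `R y = R (Δ o) * R y = ∑ l, π o l * R y` and `h.deg` (`l = 0 ≠ k - 2 dim i`); `zero_of_R`.
* `mul_fund`: `x ∈ CH o i 0`, `l ≠ 0`: `p l * x ∈ CH o i 0` (`dim i + 0 - dim i`), `R` is `0` (`h.deg`).
* `pic_mul`: `y ∈ CH i o 1`, `R y = 0`, `k = 0` or (`k = 1` and `dim i = 2`): `y * p k = 0`: for a summand `β * α` of
  `p k`: `k = 0`: `y * β ∈ CH o' o (1 + 0 - dim i)`, `R (y * β) = 0`; if `dim i ≥ 1` the codimension is `≤ 0`
  (`zero_of_R`), if `dim i = 0`: `y = 0` by `T.CH_top` (`0 + 0 < 1`). `k = 1`, `dim i = 2`: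
  `y * β ∈ CH C o (1 + dim C - 2)`, codimension `≤ 0`.
  (Span induction with the linear map `LinearMap.mulLeft ℚ y`, see `mul_through` in LibSD51/Main.)
* `mul_pic`: the transposed statement: `x ∈ CH o i 1`, `R x = 0`, `l = 2 dim i` or (`l = 3` and `dim i = 2`):
  `p l * x = 0`: `star (p l * x) = star x * p l.rev` (`hp.1.2`), `l.rev = 0` or `1`, `pic_mul` for `star x ∈ CH i o 1`.
* `top_alpha`: `dim i = 2`, `dim C ≤ 1`, `α ∈ CH i C 2`, `m = 2`: `q m * α * p 1 = 0` for `hq : IsMurre C q`: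
  `m ≤ 2 dim C` so `dim C = 1`, `q m = star (q 0)` (`m.rev = 0`), `q 0` is a sum of `a' * b'`,
  `a' ∈ CH o C 0`, `b' ∈ CH C o 1`, so `q m` is a sum of `star b' * star a'`, `star a' ∈ CH C o 0`;
  `y = star a' * α * p 1 ∈ CH i o 1` (`0 + 2 - 1`, then `1 + 2 - 2`), `R y = 0` by `h.deg` (degree `1 ↦ 1 + 2 (1 - 2) < 0`),
  and `y = y * p 1 = 0` by `p 1 * p 1 = p 1` and `pic_mul`.
-/

set_option autoImplicit false

namespace SDCK

universe u v

namespace Cycles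

variable {T : Cycles.{u, v}}

theorem zero_of_R {i j : T.ι} {c : ℤ} {z : T.C} (hc : c ≤ 0) (hz : z ∈ T.CH i j c)
    (hR : T.R z = 0) : z = 0 := by
  rcases hc.lt_or_eq with h | h
  · exact T.CH_neg h hz
  · subst h
    exact T.CH_zero hz hR

/-- correspondences to a zero-dimensional variety kill the degrees they cannot map anywhere -/
theorem se_V1_R_point {N : Set T.ι} (h : T.Facts N) {i o : T.ι} (ho : T.dim o = 0) {c : ℤ}
    {w : T.C} (hw : w ∈ T.CH i o c) (k : Fin (2 * T.dim i + 1))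
    (hk : (0 : ℤ) ≠ ((k : ℕ) : ℤ) + 2 * (c - T.dim i)) : T.R w * T.π i k = 0 := by
  have h1 : T.R w = ∑ l, T.π o l * T.R w := by
    rw [← Finset.sum_mul, T.π_sum, ← map_mul, T.Δ_mul hw]
  rw [h1, Finset.sum_mul]
  refine Finset.sum_eq_zero fun l _ => h.deg hw k l ?_
  have h2 : (l : ℕ) = 0 := by
    have h3 := l.isLt
    omega
  rw [h2]
  exact_mod_cast hk

/-- the same for correspondences from a zero-dimensional variety -/
theorem se_V1_R_point' {N : Set T.ι} (h : T.Facts N) {i o : T.ι} (ho : T.dim o = 0) {c : ℤ}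
    {w : T.C} (hw : w ∈ T.CH o i c) (l : Fin (2 * T.dim i + 1))
    (hl : ((l : ℕ) : ℤ) ≠ 2 * c) : T.π i l * T.R w = 0 := by
  have h1 : T.R w = ∑ k, T.R w * T.π o k := by
    rw [← Finset.mul_sum, T.π_sum, ← map_mul, T.mul_Δ hw]
  rw [h1, Finset.mul_sum]
  refine Finset.sum_eq_zero fun k _ => ?_
  rw [← mul_assoc]
  refine h.deg hw k l ?_
  have h2 : (k : ℕ) = 0 := by
    have h3 := k.isLt
    omega
  rw [h2, ho]
  push_cast
  intro h4
  apply hl
  linarith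

theorem fund_mul {N : Set T.ι} (h : T.Facts N) {i o : T.ι} (ho : T.dim o = 0)
    {p : Fin (2 * T.dim i + 1) → T.C} (hp : T.IsMurre i p) {y : T.C} (hy : y ∈ T.CH i o 0)
    (k : Fin (2 * T.dim i + 1)) (hk : (k : ℕ) ≠ 2 * T.dim i) : y * p k = 0 := by
  have h1 : y * p k ∈ T.CH i o 0 := by
    have h2 := T.mul_mem hy (hp.1.1.1 k)
    rwa [add_sub_cancel_right] at h2
  refine zero_of_R le_rfl h1 ?_
  rw [map_mul, hp.1.1.2.2.2 k]
  refine se_V1_R_point h ho hy k ?_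
  intro h3
  apply hk
  have h4 : ((k : ℕ) : ℤ) = 2 * T.dim i := by linarith
  exact_mod_cast h4

theorem mul_fund {N : Set T.ι} (h : T.Facts N) {i o : T.ι} (ho : T.dim o = 0)
    {p : Fin (2 * T.dim i + 1) → T.C} (hp : T.IsMurre i p) {x : T.C} (hx : x ∈ T.CH o i 0)
    (l : Fin (2 * T.dim i + 1)) (hl : (l : ℕ) ≠ 0) : p l * x = 0 := by
  have h1 : p l * x ∈ T.CH o i 0 := by
    have h2 := T.mul_mem (hp.1.1.1 l) hx
    rwa [add_sub_cancel_left] at h2
  refine zero_of_R le_rfl h1 ?_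
  rw [map_mul, hp.1.1.2.2.2 l]
  refine se_V1_R_point' h ho hx l ?_
  intro h3
  apply hl
  have h4 : ((l : ℕ) : ℤ) = 0 := by linarith
  exact_mod_cast h4

/-- homologically trivial divisors against correspondences through small dimension -/
theorem se_V1_mul_through {i o : T.ι} {y : T.C} (hy : y ∈ T.CH i o 1) (hR : T.R y = 0) {w : ℕ}
    (hw : w + 1 ≤ T.dim i) {z : T.C} (hz : z ∈ T.Through i w) : y * z = 0 := by
  refine eq_zero_of_span (AddMonoidHom.mulLeft y) ?_ _ hz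
  rintro _ ⟨o', ho', b, hb, a, -, rfl⟩
  change y * (b * a) = 0
  have h1 := T.mul_mem hy hb
  have h2 : y * b = 0 := zero_of_R (by omega) h1 (by rw [map_mul, hR, zero_mul])
  rw [← mul_assoc, h2, zero_mul]

theorem pic_mul {i o : T.ι} (ho : T.dim o = 0)
    {p : Fin (2 * T.dim i + 1) → T.C} (hp : T.IsMurre i p) {y : T.C} (hy : y ∈ T.CH i o 1)
    (hR : T.R y = 0) (k : Fin (2 * T.dim i + 1))
    (hk : (k : ℕ) = 0 ∨ ((k : ℕ) = 1 ∧ T.dim i = 2)) : y * p k = 0 := by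
  rcases hk with hk | ⟨hk, hi⟩
  · rcases Nat.eq_zero_or_pos (T.dim i) with h0 | h0
    · have h1 : y = 0 := by
        refine T.CH_top ?_ hy
        rw [h0, ho]
        norm_num
      rw [h1, zero_mul]
    · exact se_V1_mul_through hy hR (by omega) (hp.2.1 k hk)
  · exact se_V1_mul_through hy hR (by omega) (hp.2.2 k hk)

theorem mul_pic {i o : T.ι} (ho : T.dim o = 0)
    {p : Fin (2 * T.dim i + 1) → T.C} (hp : T.IsMurre i p) {x : T.C} (hx : x ∈ T.CH o i 1)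
    (hR : T.R x = 0) (l : Fin (2 * T.dim i + 1))
    (hl : (l : ℕ) = 2 * T.dim i ∨ ((l : ℕ) = 3 ∧ T.dim i = 2)) : p l * x = 0 := by
  have h1 : star x * p l.rev = 0 := by
    refine pic_mul ho hp (T.star_mem hx) (by rw [T.R_star, hR, star_zero]) l.rev ?_
    rw [Fin.val_rev]
    rcases hl with hl | ⟨hl, hi⟩
    · left
      omega
    · right
      omega
  have h2 := congrArg star h1
  rw [star_mul, star_star, star_zero, hp.1.2, Fin.rev_rev] at h2
  exact h2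

theorem top_alpha {N : Set T.ι} (h : T.Facts N) {i C : T.ι} (hi : T.dim i = 2)
    (hC : T.dim C ≤ 1) {p : Fin (2 * T.dim i + 1) → T.C} (hp : T.IsMurre i p)
    {q : Fin (2 * T.dim C + 1) → T.C} (hq : T.IsMurre C q) {α : T.C} (hα : α ∈ T.CH i C 2)
    (k : Fin (2 * T.dim i + 1)) (hk : (k : ℕ) = 1) (m : Fin (2 * T.dim C + 1))
    (hm : (m : ℕ) = 2) : q m * α * p k = 0 := by
  have hC1 : T.dim C = 1 := by
    have h1 := m.isLt
    omega
  have h0 : q m.rev ∈ T.Through C 0 := hq.2.1 m.rev (by rw [Fin.val_rev]; omega)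
  have h1 : q m = star (q m.rev) := by rw [hq.1.2, Fin.rev_rev]
  rw [h1]
  let σ : T.C →+ T.C := (starAddEquiv : T.C ≃+ T.C).toAddMonoidHom
  refine eq_zero_of_span (((AddMonoidHom.mulRight (p k)).comp (AddMonoidHom.mulRight α)).comp σ)
    ?_ _ h0
  rintro _ ⟨o, ho, a, ha, b, hb, rfl⟩
  change star (a * b) * α * p k = 0
  have ho0 : T.dim o = 0 := by omega
  have h2 : star a * α ∈ T.CH i o 1 := by
    have h3 := T.mul_mem (T.star_mem ha) hα
    rwa [ho0, hC1, show (((0 : ℕ) : ℤ) + 2 - ((1 : ℕ) : ℤ)) = 1 by norm_num] at h3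
  have h3 : star a * α * p k ∈ T.CH i o 1 := by
    have h4 := T.mul_mem h2 (hp.1.1.1 k)
    rwa [add_sub_cancel_right] at h4
  have h4 : T.R (star a * α * p k) = 0 := by
    rw [map_mul, hp.1.1.2.2.2 k]
    refine se_V1_R_point h ho0 h2 k ?_
    rw [hk, hi]
    norm_num
  have h5 : star a * α * p k * p k = 0 := pic_mul ho0 hp h3 h4 k (Or.inr ⟨hk, hi⟩)
  rw [mul_assoc (star a * α), (hp.1.1.2.1.idem k)] at h5
  rw [star_mul, mul_assoc (star b), mul_assoc (star b), h5, mul_zero]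

end Cycles

end SDCK
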