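import Pool.Agent.LibSD67.G2
import Pool.Agent.LibSD67.H
import Pool.Agent.LibSD67.I2

/-!
[SE Z] final assembly
-/

set_option autoImplicit false

namespace SDCK

universe u v

namespace Cycles

variable {T : Cycles.{u, v}}

/-- decomposition of the diagonal -/
theorem selfDual_of_diag {N : Set T.ι} (h : T.Facts N) (ha : T.Alter) {x : T.ι} {w : ℕ}
    (hw : 2 * w ≤ T.dim x + 2) (hx : T.Δ x ∈ T.Gen N x ⊔ T.Through x w) :
    ∃ P, T.IsSelfDualCK x P := by
  have h1 := diag_mem_gen ha hw hx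
  obtain ⟨P, hP, -⟩ := selfDual_of_lowGen h (x := x) ⟨T.Δ x, h1, T.Δ_mul (T.Δ_mem x), fun k => by
    rw [ρ_mul_π]⟩
  exact ⟨P, hP⟩

/-- chains of modifications -/
theorem lowGen_chain {N : Set T.ι} (h : T.Facts N) {x y : T.ι}
    (hxy : Relation.EqvGen (T.Modif N) x y) :
    (∃ P, T.IsSelfDualCK x P ∧ ∀ k : Fin (T.dim x), P (low T k) ∈ T.Gen N x) ↔
      T.LowGen N y := by
  rw [← lowGen_iff h x]
  induction hxy with
  | rel a b hab => exact modif_iff h hab
  | refl a => exact Iff.rfl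
  | symm a b _ ih => exact ih.symm
  | trans a b c _ _ ih1 ih2 => exact ih1.trans ih2

end Cycles

end SDCK
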